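import Pool.Agent.H828_SQ.Loc2

/-!
The pairs of coefficients for which the discriminant is divisible by the square of a large prime.
-/

set_option autoImplicit false

namespace Pool.Agent.H828_SQ

open Filter Topology

def Bad (e : ℤ × ℤ × ℤ) (Y : ℕ) (X : ℝ) : Set (ℤ × ℤ) :=
  {z | z ∈ Reg e X ∧ ∃ p : ℕ, p.Prime ∧ Y < p ∧ (p : ℤ) ^ 2 ∣ D e z.1 z.2}

theorem class_count (d l v : ℝ) (hl : 0 < l) (hv : 0 ≤ v) (q : ℕ) (hq : 0 < q) (y0 : ℤ) :
    {y : ℤ | |d - l * y| ≤ v ∧ (q : ℤ) ∣ y - y0}.Finite ∧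
    ({y : ℤ | |d - l * y| ≤ v ∧ (q : ℤ) ∣ y - y0}.ncard : ℝ) ≤ 2 * v / (l * q) + 1 := by
  have hq' : (0 : ℝ) < q := by exact_mod_cast hq
  obtain ⟨h1, h2⟩ := line_count (l * q) (d - l * y0) v (by positivity) hv
  have hset : {y : ℤ | |d - l * y| ≤ v ∧ (q : ℤ) ∣ y - y0} =
      (fun t : ℤ => y0 + q * t) '' {t : ℤ | |(d - l * y0) - (l * q) * t| ≤ v} := by
    ext y
    simp only [Set.mem_ofPred_eq, Set.mem_image]
    constructor
    · rintro ⟨h3, t, ht⟩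
      have hy : y = y0 + q * t := by linarith
      refine ⟨t, ?_, hy.symm⟩
      rw [hy] at h3
      push_cast at h3
      convert h3 using 2
      ring
    · rintro ⟨t, h3, rfl⟩
      refine ⟨?_, ⟨t, by ring⟩⟩
      push_cast
      convert h3 using 2
      ring
  rw [hset]
  refine ⟨h1.image _, ?_⟩
  rw [Set.ncard_image_of_injective]
  · have := (abs_le.1 h2).2
    linarith
  · intro a b hab
    have : (q : ℤ) * a = q * b := by
      simp only at hab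
      linarith
    exact mul_left_cancel₀ (by exact_mod_cast hq.ne') this

theorem fiber_bound {A : Set (ℤ × ℤ)} {I : Set ℤ} (hI : I.Finite) {S : ℤ → Set ℤ}
    (hS : ∀ x ∈ I, (S x).Finite) (hA : ∀ z ∈ A, z.1 ∈ I ∧ z.2 ∈ S z.1) {a b : ℝ} (hb : 0 ≤ b)
    (h1 : (I.ncard : ℝ) ≤ a) (h2 : ∀ x ∈ I, ((S x).ncard : ℝ) ≤ b) : (A.ncard : ℝ) ≤ a * b := by
  obtain ⟨h3, h4⟩ := ncard_fibers hI hS
  have h5 : A.ncard ≤ {z : ℤ × ℤ | z.1 ∈ I ∧ z.2 ∈ S z.1}.ncard :=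
    Set.ncard_le_ncard (fun z hz => hA z hz) h3
  have hc : (hI.toFinset.card : ℝ) = (I.ncard : ℝ) := by
    rw [← Set.ncard_coe_finset, Set.Finite.coe_toFinset]
  calc (A.ncard : ℝ) ≤ ({z : ℤ × ℤ | z.1 ∈ I ∧ z.2 ∈ S z.1}.ncard : ℝ) := by exact_mod_cast h5
    _ = ∑ x ∈ hI.toFinset, ((S x).ncard : ℝ) := by
        rw [h4]
        push_cast
        rfl
    _ ≤ ∑ x ∈ hI.toFinset, b := Finset.sum_le_sum fun x hx => h2 x (by simpa using hx)
    _ = (I.ncard : ℝ) * b := by rw [Finset.sum_const, nsmul_eq_mul, hc]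
    _ ≤ a * b := mul_le_mul_of_nonneg_right h1 hb

section counts

variable (e : ℤ × ℤ × ℤ) {X : ℝ} (hX : 1 ≤ X)
include hX

theorem xs : {x : ℤ | |(al e : ℝ) - 48 * x| ≤ X ^ (1 / 3 : ℝ)}.Finite ∧
    ({x : ℤ | |(al e : ℝ) - 48 * x| ≤ X ^ (1 / 3 : ℝ)}.ncard : ℝ) ≤ 2 * X ^ (1 / 3 : ℝ) := by
  have h1 : 1 ≤ X ^ (1 / 3 : ℝ) := Real.one_le_rpow hX (by norm_num)
  obtain ⟨h2, h3⟩ := line_count 48 (al e) (X ^ (1 / 3 : ℝ)) (by norm_num) (by linarith)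
  refine ⟨h2, ?_⟩
  have := (abs_le.1 h3).2
  linarith

theorem cnt_val (c : ℤ) : (({z | z ∈ Reg e X ∧ D e z.1 z.2 = c} : Set (ℤ × ℤ)).ncard : ℝ) ≤
    2 * X ^ (1 / 3 : ℝ) * 2 := by
  obtain ⟨h1, h2⟩ := xs e hX
  have hfin : ∀ x : ℤ, {y : ℤ | |((be e : ℝ) + 72 * b2 e * x) - 864 * y| ≤ X ^ (1 / 2 : ℝ) ∧
      D e x y = c}.Finite := by
    intro x
    refine (line_count 864 _ (X ^ (1 / 2 : ℝ)) (by norm_num)
      (Real.rpow_nonneg (by linarith) _)).1.subset fun y hy => hy.1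
  refine fiber_bound h1 (S := fun x => {y : ℤ | |((be e : ℝ) + 72 * b2 e * x) - 864 * y| ≤
    X ^ (1 / 2 : ℝ) ∧ D e x y = c}) (fun x _ => hfin x) ?_ (by norm_num) h2 ?_
  · rintro z ⟨hz, h0⟩
    rw [reg_iff (by linarith)] at hz
    exact ⟨hz.1, hz.2, h0⟩
  · intro x _
    rcases Set.eq_empty_or_nonempty {y : ℤ | |((be e : ℝ) + 72 * b2 e * x) - 864 * y| ≤
      X ^ (1 / 2 : ℝ) ∧ D e x y = c} with h | ⟨y0, hy0⟩
    · simp only [h]
      simp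
    · have hsub : {y : ℤ | |((be e : ℝ) + 72 * b2 e * x) - 864 * y| ≤
          X ^ (1 / 2 : ℝ) ∧ D e x y = c} ⊆ {y0} ∪ {y | be e + 72 * b2 e * x - 432 * (y + y0) = 0} := by
        rintro y ⟨_, hy⟩
        have h3 := D_sub e x y y0
        rw [hy, hy0.2, sub_self] at h3
        rcases mul_eq_zero.1 h3.symm with h4 | h4
        · left
          exact Set.mem_singleton_iff.2 (by linarith)
        · right
          exact h4
      have hss : ({y | be e + 72 * b2 e * x - 432 * (y + y0) = 0} : Set ℤ).Subsingleton := by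
        intro a ha b hb
        simp only [Set.mem_ofPred_eq] at ha hb
        linarith
      have h4 := Set.ncard_le_ncard hsub ((Set.finite_singleton _).union hss.finite)
      have h5 := Set.ncard_union_le {y0} {y | be e + 72 * b2 e * x - 432 * (y + y0) = 0}
      have h6 : ({y | be e + 72 * b2 e * x - 432 * (y + y0) = 0} : Set ℤ).ncard ≤ 1 :=
        (Set.ncard_le_one hss.finite).2 fun a ha b hb => hss ha hb
      rw [Set.ncard_singleton] at h5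
      have h7 : ({y : ℤ | |((be e : ℝ) + 72 * b2 e * x) - 864 * y| ≤
          X ^ (1 / 2 : ℝ) ∧ D e x y = c}).ncard ≤ 2 := by omega
      exact_mod_cast h7

theorem cnt_c4 : (({z | z ∈ Reg e X ∧ u4 e z.1 = 0} : Set (ℤ × ℤ)).ncard : ℝ) ≤
    1 * (2 * X ^ (1 / 2 : ℝ)) := by
  have h0 : 1 ≤ X ^ (1 / 2 : ℝ) := Real.one_le_rpow hX (by norm_num)
  have hss : ({x | u4 e x = 0} : Set ℤ).Subsingleton := by
    intro a ha b hb
    simp only [Set.mem_ofPred_eq, u4] at ha hb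
    linarith
  have hl : ∀ x : ℤ, _ := fun x : ℤ => line_count 864 ((be e : ℝ) + 72 * b2 e * x)
    (X ^ (1 / 2 : ℝ)) (by norm_num) (by linarith)
  refine fiber_bound hss.finite (S := fun x => {y : ℤ | |((be e : ℝ) + 72 * b2 e * x) - 864 * y| ≤
    X ^ (1 / 2 : ℝ)}) (fun x _ => (hl x).1) ?_ (by linarith) ?_ ?_
  · rintro z ⟨hz, h1⟩
    rw [reg_iff (by linarith)] at hz
    exact ⟨h1, hz.2⟩
  · have := (Set.ncard_le_one hss.finite).2 fun a ha b hb => hss ha hb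
    exact_mod_cast this
  · intro x _
    have := (abs_le.1 (hl x).2).2
    linarith

theorem cnt_T {p : ℕ} (hp : p.Prime) (h5 : 5 ≤ p) :
    (({z | z ∈ Reg e X ∧ ¬ (p : ℤ) ∣ u4 e z.1 ∧ (p : ℤ) ^ 2 ∣ D e z.1 z.2} : Set (ℤ × ℤ)).ncard : ℝ) ≤
    2 * X ^ (1 / 3 : ℝ) * (X ^ (1 / 2 : ℝ) * ((p : ℝ) ^ 2)⁻¹ + 2) := by
  obtain ⟨h1, h2⟩ := xs e hX
  have hv : 0 ≤ X ^ (1 / 2 : ℝ) := Real.rpow_nonneg (by linarith) _
  have hp' : Prime (p : ℤ) := Nat.prime_iff_prime_int.1 hp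
  have hp0 : (0 : ℝ) < p := by exact_mod_cast hp.pos
  have hfin : ∀ x : ℤ, {y : ℤ | |((be e : ℝ) + 72 * b2 e * x) - 864 * y| ≤ X ^ (1 / 2 : ℝ) ∧
      ¬ (p : ℤ) ∣ u4 e x ∧ (p : ℤ) ^ 2 ∣ D e x y}.Finite := by
    intro x
    exact (line_count 864 _ (X ^ (1 / 2 : ℝ)) (by norm_num) hv).1.subset fun y hy => hy.1
  refine fiber_bound h1 (S := fun x => {y : ℤ | |((be e : ℝ) + 72 * b2 e * x) - 864 * y| ≤
    X ^ (1 / 2 : ℝ) ∧ ¬ (p : ℤ) ∣ u4 e x ∧ (p : ℤ) ^ 2 ∣ D e x y}) (fun x _ => hfin x) ?_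
    (by positivity) h2 ?_
  · rintro z ⟨hz, h0⟩
    rw [reg_iff (by linarith)] at hz
    exact ⟨hz.1, hz.2, h0⟩
  · intro x _
    set A := {y : ℤ | |((be e : ℝ) + 72 * b2 e * x) - 864 * y| ≤
      X ^ (1 / 2 : ℝ) ∧ ¬ (p : ℤ) ∣ u4 e x ∧ (p : ℤ) ^ 2 ∣ D e x y} with hA
    have hcl := fun y0 : ℤ => class_count ((be e : ℝ) + 72 * b2 e * x) 864 (X ^ (1 / 2 : ℝ))
      (by norm_num) hv (p ^ 2) (pow_pos hp.pos 2) y0
    have hcb : ∀ y0 : ℤ, (({y : ℤ | |((be e : ℝ) + 72 * b2 e * x) - 864 * y| ≤ X ^ (1 / 2 : ℝ) ∧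
        ((p ^ 2 : ℕ) : ℤ) ∣ y - y0}).ncard : ℝ) ≤
        (X ^ (1 / 2 : ℝ) * ((p : ℝ) ^ 2)⁻¹ + 2) / 2 := by
      intro y0
      refine (hcl y0).2.trans ?_
      have e1 : 2 * X ^ (1 / 2 : ℝ) / (864 * ((p ^ 2 : ℕ) : ℝ)) =
          (X ^ (1 / 2 : ℝ) * ((p : ℝ) ^ 2)⁻¹) / 432 := by
        push_cast
        field_simp
        norm_num
      rw [e1]
      have : 0 ≤ X ^ (1 / 2 : ℝ) * ((p : ℝ) ^ 2)⁻¹ := by positivity
      linarith
    rcases Set.eq_empty_or_nonempty A with h | ⟨y0, hy0⟩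
    · rw [h, Set.ncard_empty]
      push_cast
      positivity
    · have hc432 : IsCoprime ((p : ℤ) ^ 2) 432 := by
        have h6 : Nat.Coprime 432 (p ^ 2) := six_coprime hp h5 2 4 (by norm_num)
        have h7 := Nat.isCoprime_iff_coprime.2 h6.symm
        push_cast at h7
        exact h7
      have hdich : ∀ y ∈ A, (p : ℤ) ^ 2 ∣ y - y0 ∨
          (p : ℤ) ^ 2 ∣ be e + 72 * b2 e * x - 432 * (y + y0) := by
        intro y hy
        have h3 : (p : ℤ) ^ 2 ∣ (y - y0) * (be e + 72 * b2 e * x - 432 * (y + y0)) := by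
          rw [← D_sub]
          exact dvd_sub hy.2.2 hy0.2.2
        by_cases h4 : (p : ℤ) ∣ y - y0
        · left
          refine hp'.pow_dvd_of_dvd_mul_right 2 ?_ h3
          intro h6
          have h7 : (p : ℤ) ∣ u6 e x y := by
            have h8 : u6 e x y = (be e + 72 * b2 e * x - 432 * (y + y0)) - 432 * (y - y0) := by
              unfold u6
              ring
            rw [h8]
            exact dvd_sub h6 (h4.mul_left _)
          have h9 : (p : ℤ) ∣ u4 e x ^ 3 := by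
            have h10 : u4 e x ^ 3 = 1728 * D e x y + u6 e x y ^ 2 := by
              have := rel e x y
              linarith
            rw [h10]
            exact dvd_add (((dvd_pow_self _ (by norm_num)).trans hy.2.2).mul_left _)
              (dvd_pow h7 (by norm_num))
          exact hy.2.1 (hp'.dvd_of_dvd_pow h9)
        · right
          exact hp'.pow_dvd_of_dvd_mul_left 2 h4 h3
      obtain ⟨y1, hsub⟩ : ∃ y1 : ℤ, A ⊆ {y : ℤ | |((be e : ℝ) + 72 * b2 e * x) - 864 * y| ≤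
            X ^ (1 / 2 : ℝ) ∧ ((p ^ 2 : ℕ) : ℤ) ∣ y - y0} ∪
            {y : ℤ | |((be e : ℝ) + 72 * b2 e * x) - 864 * y| ≤
            X ^ (1 / 2 : ℝ) ∧ ((p ^ 2 : ℕ) : ℤ) ∣ y - y1} := by
        by_cases hex : ∃ y1 ∈ A, (p : ℤ) ^ 2 ∣ be e + 72 * b2 e * x - 432 * (y1 + y0)
        · obtain ⟨y1, hy1, h6⟩ := hex
          refine ⟨y1, fun y hy => ?_⟩
          rcases hdich y hy with h7 | h7
          · left
            exact ⟨hy.1, by push_cast; exact h7⟩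
          · right
            refine ⟨hy.1, ?_⟩
            push_cast
            have h8 : (p : ℤ) ^ 2 ∣ 432 * (y - y1) := by
              have h9 := dvd_sub h6 h7
              have h10 : be e + 72 * b2 e * x - 432 * (y1 + y0) -
                (be e + 72 * b2 e * x - 432 * (y + y0)) = 432 * (y - y1) := by ring
              rwa [h10] at h9
            exact hc432.dvd_of_dvd_mul_left h8
        · refine ⟨y0, fun y hy => ?_⟩
          left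
          rcases hdich y hy with h7 | h7
          · exact ⟨hy.1, by push_cast; exact h7⟩
          · exact absurd ⟨y, hy, h7⟩ hex
      have h6 := Set.ncard_le_ncard hsub ((hcl y0).1.union (hcl y1).1)
      have h7 := h6.trans (Set.ncard_union_le _ _)
      have h8 : (A.ncard : ℝ) ≤
          ({y : ℤ | |((be e : ℝ) + 72 * b2 e * x) - 864 * y| ≤
            X ^ (1 / 2 : ℝ) ∧ ((p ^ 2 : ℕ) : ℤ) ∣ y - y0}.ncard : ℝ) +
          ({y : ℤ | |((be e : ℝ) + 72 * b2 e * x) - 864 * y| ≤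
            X ^ (1 / 2 : ℝ) ∧ ((p ^ 2 : ℕ) : ℤ) ∣ y - y1}.ncard : ℝ) := by exact_mod_cast h7
      linarith [hcb y0, hcb y1]

theorem cnt_U {p : ℕ} (hp : p.Prime) (h5 : 5 ≤ p) (hpu : (p : ℝ) ≤ X ^ (1 / 3 : ℝ)) :
    (({z | z ∈ Reg e X ∧ (p : ℤ) ∣ u4 e z.1 ∧ (p : ℤ) ∣ u6 e z.1 z.2} : Set (ℤ × ℤ)).ncard : ℝ) ≤
    (2 * X ^ (1 / 3 : ℝ) / p) * (2 * X ^ (1 / 2 : ℝ) / p) := by
  have hX0 : 0 < X := by linarith
  have hu : 0 ≤ X ^ (1 / 3 : ℝ) := Real.rpow_nonneg hX0.le _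
  have hv : 0 ≤ X ^ (1 / 2 : ℝ) := Real.rpow_nonneg hX0.le _
  have huv : X ^ (1 / 3 : ℝ) ≤ X ^ (1 / 2 : ℝ) :=
    Real.rpow_le_rpow_of_exponent_le hX (by norm_num)
  have hp' : Prime (p : ℤ) := Nat.prime_iff_prime_int.1 hp
  have hp0 : (0 : ℝ) < p := by exact_mod_cast hp.pos
  have hc1 : IsCoprime (p : ℤ) 48 := by
    have h6 : Nat.Coprime 48 (p ^ 1) := six_coprime hp h5 1 4 (by norm_num)
    have h7 := Nat.isCoprime_iff_coprime.2 h6.symm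
    rw [pow_one] at h7
    exact_mod_cast h7
  have hc2 : IsCoprime (p : ℤ) 864 := by
    have h6 : Nat.Coprime 864 (p ^ 1) := six_coprime hp h5 1 5 (by norm_num)
    have h7 := Nat.isCoprime_iff_coprime.2 h6.symm
    rw [pow_one] at h7
    exact_mod_cast h7
  have hI : ({x : ℤ | |(al e : ℝ) - 48 * x| ≤ X ^ (1 / 3 : ℝ) ∧ (p : ℤ) ∣ u4 e x}).Finite :=
    (xs e hX).1.subset fun x hx => hx.1
  have hS : ∀ x : ℤ, ({y : ℤ | |((be e : ℝ) + 72 * b2 e * x) - 864 * y| ≤ X ^ (1 / 2 : ℝ) ∧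
      (p : ℤ) ∣ u6 e x y}).Finite := fun x =>
    (line_count 864 _ (X ^ (1 / 2 : ℝ)) (by norm_num) hv).1.subset fun y hy => hy.1
  refine fiber_bound hI (S := fun x => {y : ℤ | |((be e : ℝ) + 72 * b2 e * x) - 864 * y| ≤
    X ^ (1 / 2 : ℝ) ∧ (p : ℤ) ∣ u6 e x y}) (fun x _ => hS x) ?_ (by positivity) ?_ ?_
  · rintro z ⟨hz, h1, h2⟩
    rw [reg_iff (by linarith)] at hz
    exact ⟨⟨hz.1, h1⟩, hz.2, h2⟩
  · rcases Set.eq_empty_or_nonempty {x : ℤ | |(al e : ℝ) - 48 * x| ≤ X ^ (1 / 3 : ℝ) ∧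
      (p : ℤ) ∣ u4 e x} with h | ⟨x0, hx0⟩
    · rw [h, Set.ncard_empty]
      push_cast
      positivity
    · have hsub : {x : ℤ | |(al e : ℝ) - 48 * x| ≤ X ^ (1 / 3 : ℝ) ∧ (p : ℤ) ∣ u4 e x} ⊆
          {x : ℤ | |(al e : ℝ) - 48 * x| ≤ X ^ (1 / 3 : ℝ) ∧ ((p : ℕ) : ℤ) ∣ x - x0} := by
        rintro x ⟨h1, h2⟩
        refine ⟨h1, ?_⟩
        have h3 := dvd_sub hx0.2 h2
        have h4 : u4 e x0 - u4 e x = 48 * (x - x0) := by
          unfold u4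
          ring
        rw [h4] at h3
        exact hc1.dvd_of_dvd_mul_left h3
      obtain ⟨h6, h7⟩ := class_count (al e) 48 (X ^ (1 / 3 : ℝ)) (by norm_num) hu p hp.pos x0
      have h8 := (Nat.cast_le (α := ℝ)).2 (Set.ncard_le_ncard hsub h6)
      refine (h8.trans h7).trans ?_
      have h9 : 1 ≤ X ^ (1 / 3 : ℝ) / p := by rwa [one_le_div hp0]
      have e1 : 2 * X ^ (1 / 3 : ℝ) / (48 * p) = (X ^ (1 / 3 : ℝ) / p) / 24 := by
        field_simp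
        norm_num
      have e2 : 2 * X ^ (1 / 3 : ℝ) / p = 2 * (X ^ (1 / 3 : ℝ) / p) := by ring
      rw [e1, e2]
      linarith
  · intro x _
    rcases Set.eq_empty_or_nonempty {y : ℤ | |((be e : ℝ) + 72 * b2 e * x) - 864 * y| ≤
      X ^ (1 / 2 : ℝ) ∧ (p : ℤ) ∣ u6 e x y} with h | ⟨y0, hy0⟩
    · simp only [h]
      rw [Set.ncard_empty]
      push_cast
      positivity
    · have hsub : {y : ℤ | |((be e : ℝ) + 72 * b2 e * x) - 864 * y| ≤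
          X ^ (1 / 2 : ℝ) ∧ (p : ℤ) ∣ u6 e x y} ⊆
          {y : ℤ | |((be e : ℝ) + 72 * b2 e * x) - 864 * y| ≤
          X ^ (1 / 2 : ℝ) ∧ ((p : ℕ) : ℤ) ∣ y - y0} := by
        rintro y ⟨h1, h2⟩
        refine ⟨h1, ?_⟩
        have h3 := dvd_sub hy0.2 h2
        have h4 : u6 e x y0 - u6 e x y = 864 * (y - y0) := by
          unfold u6
          ring
        rw [h4] at h3
        exact hc2.dvd_of_dvd_mul_left h3
      obtain ⟨h6, h7⟩ := class_count ((be e : ℝ) + 72 * b2 e * x) 864 (X ^ (1 / 2 : ℝ))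
        (by norm_num) hv p hp.pos y0
      have h8 := (Nat.cast_le (α := ℝ)).2 (Set.ncard_le_ncard hsub h6)
      refine (h8.trans h7).trans ?_
      have h9 : 1 ≤ X ^ (1 / 2 : ℝ) / p := by
        rw [one_le_div hp0]
        linarith
      have e1 : 2 * X ^ (1 / 2 : ℝ) / (864 * p) = (X ^ (1 / 2 : ℝ) / p) / 432 := by
        field_simp
        norm_num
      have e2 : 2 * X ^ (1 / 2 : ℝ) / p = 2 * (X ^ (1 / 2 : ℝ) / p) := by ring
      rw [e1, e2]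
      linarith

end counts

theorem inv_sq_sum {Y N : ℕ} (hY : 1 ≤ Y) : ∑ p ∈ Finset.Ioc Y N, ((p : ℝ) ^ 2)⁻¹ ≤ 1 / Y := by
  rcases le_or_gt Y N with h | h
  · have h1 := sum_Ioc_inv_sq_le_sub (α := ℝ) (k := Y) (n := N) (by omega) h
    have h2 : (0 : ℝ) ≤ (N : ℝ)⁻¹ := by positivity
    rw [one_div]
    linarith
  · rw [Finset.Ioc_eq_empty (by omega), Finset.sum_empty]
    positivity

theorem bad_bound (e : ℤ × ℤ × ℤ) {X : ℝ} (hX : 1 ≤ X) {Y : ℕ} (hY : 4 ≤ Y) :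
    ((Bad e Y X).ncard : ℝ) ≤ 4 * X ^ (1 / 3 : ℝ) + 2 * X ^ (1 / 2 : ℝ) +
      (2 * X ^ (5 / 6 : ℝ) / Y + 4 * X ^ (1 / 3 : ℝ) * (Nat.primeCounting ⌊X ^ (1 / 2 : ℝ)⌋₊ : ℝ)) +
      4 * X ^ (5 / 6 : ℝ) / Y := by
  classical
  have hX0 : 0 < X := by linarith
  set u := X ^ (1 / 3 : ℝ) with hu
  set v := X ^ (1 / 2 : ℝ) with hv
  have hu1 : 1 ≤ u := Real.one_le_rpow hX (by norm_num)
  have hv1 : 1 ≤ v := Real.one_le_rpow hX (by norm_num)
  have huv : u * v = X ^ (5 / 6 : ℝ) := by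
    rw [hu, hv, ← Real.rpow_add hX0]
    norm_num
  have hu3 : u ^ 3 = X := by
    rw [hu, ← Real.rpow_natCast, ← Real.rpow_mul hX0.le]
    norm_num
  have hv2 : v ^ 2 = X := by
    rw [hv, ← Real.rpow_natCast, ← Real.rpow_mul hX0.le]
    norm_num
  have hYr : (4 : ℝ) ≤ Y := by exact_mod_cast hY
  let P1 := (Finset.Ioc Y ⌊v⌋₊).filter Nat.Prime
  let P2 := (Finset.Ioc Y ⌊u⌋₊).filter Nat.Prime
  let R := (reg_finite e X).toFinset
  have hmR : ∀ z, z ∈ R ↔ z ∈ Reg e X := fun z => by simp [R]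
  let A0 := R.filter fun z => D e z.1 z.2 = 0
  let A1 := R.filter fun z => u4 e z.1 = 0
  let T := fun p : ℕ => R.filter fun z => ¬ (p : ℤ) ∣ u4 e z.1 ∧ (p : ℤ) ^ 2 ∣ D e z.1 z.2
  let U := fun p : ℕ => R.filter fun z => (p : ℤ) ∣ u4 e z.1 ∧ (p : ℤ) ∣ u6 e z.1 z.2
  have hcov : Bad e Y X ⊆
      ((((A0 ∪ A1) ∪ P1.biUnion T) ∪ P2.biUnion U : Finset (ℤ × ℤ)) : Set (ℤ × ℤ)) := by
    rintro z ⟨hz, p, hp, hYp, hpd⟩
    have hp' : Prime (p : ℤ) := Nat.prime_iff_prime_int.1 hp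
    simp only [Finset.coe_union, Set.mem_union, Finset.mem_coe, Finset.mem_biUnion, A0, A1, T, U,
      Finset.mem_filter, hmR]
    by_cases h0 : D e z.1 z.2 = 0
    · exact Or.inl (Or.inl (Or.inl ⟨hz, h0⟩))
    by_cases h4 : u4 e z.1 = 0
    · exact Or.inl (Or.inl (Or.inr ⟨hz, h4⟩))
    by_cases h5 : (p : ℤ) ∣ u4 e z.1
    · right
      refine ⟨p, ?_, hz, h5, ?_⟩
      · simp only [P2, Finset.mem_filter, Finset.mem_Ioc]
        refine ⟨⟨hYp, Nat.le_floor ?_⟩, hp⟩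
        have h6 : (p : ℤ) ≤ |u4 e z.1| := Int.le_of_dvd (abs_pos.2 h4) ((dvd_abs _ _).2 h5)
        have h7 : (p : ℝ) ≤ |(u4 e z.1 : ℝ)| := by exact_mod_cast h6
        have h8 : |(u4 e z.1 : ℝ)| ^ 3 ≤ u ^ 3 := by rw [hu3]; exact hz.1
        exact h7.trans ((pow_le_pow_iff_left₀ (abs_nonneg _) (by linarith) (by norm_num)).1 h8)
      · have h6 : (p : ℤ) ∣ u6 e z.1 z.2 ^ 2 := by
          have h10 : u6 e z.1 z.2 ^ 2 = u4 e z.1 ^ 3 - 1728 * D e z.1 z.2 := by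
            have := rel e z.1 z.2
            linarith
          rw [h10]
          exact dvd_sub (dvd_pow h5 (by norm_num))
            (((dvd_pow_self _ (by norm_num)).trans hpd).mul_left _)
        exact hp'.dvd_of_dvd_pow h6
    · left
      right
      refine ⟨p, ?_, hz, h5, hpd⟩
      simp only [P1, Finset.mem_filter, Finset.mem_Ioc]
      refine ⟨⟨hYp, Nat.le_floor ?_⟩, hp⟩
      have h6 : (p : ℤ) ^ 2 ≤ |D e z.1 z.2| :=
        Int.le_of_dvd (abs_pos.2 h0) ((dvd_abs _ _).2 hpd)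
      have h7 : (p : ℝ) ^ 2 ≤ |(D e z.1 z.2 : ℝ)| := by exact_mod_cast h6
      have h8 : 1728 * |(D e z.1 z.2 : ℝ)| ≤ 2 * X := by
        have h9 : (1728 : ℝ) * (D e z.1 z.2 : ℝ) = (u4 e z.1 : ℝ) ^ 3 - (u6 e z.1 z.2 : ℝ) ^ 2 := by
          exact_mod_cast rel e z.1 z.2
        have h10 : |(1728 : ℝ) * (D e z.1 z.2 : ℝ)| ≤ X + X := by
          rw [h9]
          refine (abs_sub _ _).trans ?_
          rw [abs_pow, abs_of_nonneg (sq_nonneg (u6 e z.1 z.2 : ℝ))]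
          exact add_le_add hz.1 hz.2
        rw [abs_mul, abs_of_pos (by norm_num : (0 : ℝ) < 1728)] at h10
        linarith
      have h9 : (p : ℝ) ^ 2 ≤ v ^ 2 := by
        rw [hv2]
        linarith
      exact (pow_le_pow_iff_left₀ (by positivity) (by linarith) (by norm_num)).1 h9
  have hcard : ∀ (Q : ℤ × ℤ → Prop) [DecidablePred Q], ((R.filter Q).card : ℝ) =
      (({z | z ∈ Reg e X ∧ Q z} : Set (ℤ × ℤ)).ncard : ℝ) := by
    intro Q _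
    rw [← Set.ncard_coe_finset]
    congr 2
    ext z
    simp [R]
  have h1 : (A0.card : ℝ) ≤ 4 * u := by
    have := cnt_val e hX 0
    rw [hcard]
    linarith
  have h2 : (A1.card : ℝ) ≤ 2 * v := by
    have := cnt_c4 e hX
    rw [hcard]
    linarith
  have h3 : ∀ p ∈ P1, ((T p).card : ℝ) ≤ 2 * u * (v * ((p : ℝ) ^ 2)⁻¹ + 2) := by
    intro p hp
    simp only [P1, Finset.mem_filter, Finset.mem_Ioc] at hp
    have := cnt_T e hX hp.2 (by omega)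
    rw [hcard]
    exact this
  have h4 : ∀ p ∈ P2, ((U p).card : ℝ) ≤ 4 * (u * v) * ((p : ℝ) ^ 2)⁻¹ := by
    intro p hp
    simp only [P2, Finset.mem_filter, Finset.mem_Ioc] at hp
    have h5 : (p : ℝ) ≤ u := (Nat.cast_le.2 hp.1.2).trans (Nat.floor_le (by linarith))
    have := cnt_U e hX hp.2 (by omega) h5
    rw [hcard]
    refine this.trans (le_of_eq ?_)
    have hp0 : (p : ℝ) ≠ 0 := by exact_mod_cast hp.2.ne_zero
    field_simp
    ring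
  have h5 : (P1.card : ℝ) ≤ Nat.primeCounting ⌊v⌋₊ := by
    have : P1.card ≤ (Nat.primesLE ⌊v⌋₊).card := by
      refine Finset.card_le_card fun p hp => ?_
      simp only [P1, Finset.mem_filter, Finset.mem_Ioc] at hp
      exact Nat.mem_primesLE.2 ⟨hp.1.2, hp.2⟩
    rw [Nat.primesLE_card_eq_primeCounting] at this
    exact_mod_cast this
  have h6 : ∀ N : ℕ, ∑ p ∈ (Finset.Ioc Y N).filter Nat.Prime, ((p : ℝ) ^ 2)⁻¹ ≤ 1 / Y := by
    intro N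
    refine le_trans (Finset.sum_le_sum_of_subset_of_nonneg (Finset.filter_subset _ _) ?_)
      (inv_sq_sum (by omega))
    intro p _ _
    positivity
  have h7 : (Bad e Y X).ncard ≤ (((A0 ∪ A1) ∪ P1.biUnion T) ∪ P2.biUnion U).card := by
    rw [← Set.ncard_coe_finset]
    exact Set.ncard_le_ncard hcov (Finset.finite_toSet _)
  have h8 : (((A0 ∪ A1) ∪ P1.biUnion T) ∪ P2.biUnion U).card ≤
      A0.card + A1.card + ∑ p ∈ P1, (T p).card + ∑ p ∈ P2, (U p).card := by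
    refine (Finset.card_union_le _ _).trans (Nat.add_le_add ?_ Finset.card_biUnion_le)
    refine (Finset.card_union_le _ _).trans (Nat.add_le_add ?_ Finset.card_biUnion_le)
    exact Finset.card_union_le _ _
  have h9 : ((Bad e Y X).ncard : ℝ) ≤
      A0.card + A1.card + ∑ p ∈ P1, ((T p).card : ℝ) + ∑ p ∈ P2, ((U p).card : ℝ) := by
    exact_mod_cast h7.trans h8
  have h10 : ∑ p ∈ P1, ((T p).card : ℝ) ≤ 2 * (u * v) / Y +
      4 * u * (Nat.primeCounting ⌊v⌋₊ : ℝ) := by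
    calc ∑ p ∈ P1, ((T p).card : ℝ) ≤ ∑ p ∈ P1, 2 * u * (v * ((p : ℝ) ^ 2)⁻¹ + 2) :=
          Finset.sum_le_sum h3
      _ = 2 * (u * v) * ∑ p ∈ P1, ((p : ℝ) ^ 2)⁻¹ + 4 * u * P1.card := by
          rw [Finset.mul_sum, mul_comm (4 * u), ← nsmul_eq_mul, ← Finset.sum_const,
            ← Finset.sum_add_distrib]
          exact Finset.sum_congr rfl fun p _ => by ring
      _ ≤ 2 * (u * v) * (1 / Y) + 4 * u * (Nat.primeCounting ⌊v⌋₊ : ℝ) :=
          add_le_add (mul_le_mul_of_nonneg_left (h6 _) (by positivity))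
            (mul_le_mul_of_nonneg_left h5 (by positivity))
      _ = _ := by ring
  have h11 : ∑ p ∈ P2, ((U p).card : ℝ) ≤ 4 * (u * v) / Y := by
    calc ∑ p ∈ P2, ((U p).card : ℝ) ≤ ∑ p ∈ P2, 4 * (u * v) * ((p : ℝ) ^ 2)⁻¹ :=
          Finset.sum_le_sum h4
      _ = 4 * (u * v) * ∑ p ∈ P2, ((p : ℝ) ^ 2)⁻¹ := by rw [Finset.mul_sum]
      _ ≤ 4 * (u * v) * (1 / Y) := mul_le_mul_of_nonneg_left (h6 _) (by positivity)
      _ = _ := by ring
  rw [← huv]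
  linarith

theorem pi_small : Tendsto (fun x : ℝ => (Nat.primeCounting ⌊x⌋₊ : ℝ) / x) atTop (𝓝 0) := by
  have h1 := Chebyshev.eventually_primeCounting_le (ε := 1) one_pos
  have h2 : Tendsto (fun x : ℝ => (Real.log 4 + 1) / Real.log x) atTop (𝓝 0) :=
    Real.tendsto_log_atTop.const_div_atTop _
  refine squeeze_zero' ?_ ?_ h2
  · filter_upwards [eventually_gt_atTop 0] with x hx
    positivity
  · filter_upwards [h1, eventually_gt_atTop 1] with x hx hx1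
    have hl : 0 < Real.log x := Real.log_pos hx1
    rw [div_le_div_iff₀ (by linarith) hl]
    rw [le_div_iff₀ hl] at hx
    linarith

/-- few pairs have a discriminant divisible by the square of a large prime -/
theorem bad_small (e : ℤ × ℤ × ℤ) {Y : ℕ} (hY : 4 ≤ Y) :
    ∀ᶠ X : ℝ in atTop, ((Bad e Y X).ncard : ℝ) / X ^ (5 / 6 : ℝ) ≤ 7 / Y := by
  have hYr : (4 : ℝ) ≤ Y := by exact_mod_cast hY
  have hv : Tendsto (fun X : ℝ => X ^ (1 / 2 : ℝ)) atTop atTop :=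
    tendsto_rpow_atTop (by norm_num)
  have h1 : Tendsto (fun X : ℝ => 4 * ((X ^ (1 / 3 : ℝ) + X ^ (1 / 2 : ℝ) + 1) /
      X ^ (5 / 6 : ℝ)) + 4 * ((Nat.primeCounting ⌊X ^ (1 / 2 : ℝ)⌋₊ : ℝ) / X ^ (1 / 2 : ℝ)))
      atTop (𝓝 (4 * 0 + 4 * 0)) :=
    (err_tendsto.const_mul 4).add ((pi_small.comp hv).const_mul 4)
  have h2 : (0 : ℝ) < 1 / Y := by positivity
  have h3 := h1.eventually (gt_mem_nhds (by rw [mul_zero, add_zero]; exact h2))
  filter_upwards [h3, eventually_ge_atTop 1] with X h3 hX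
  have hX0 : 0 < X := by linarith
  have hb := bad_bound e hX hY
  have hp : 0 < X ^ (5 / 6 : ℝ) := Real.rpow_pos_of_pos hX0 _
  have hu : 0 < X ^ (1 / 3 : ℝ) := Real.rpow_pos_of_pos hX0 _
  have hvp : 0 < X ^ (1 / 2 : ℝ) := Real.rpow_pos_of_pos hX0 _
  have huv : X ^ (1 / 3 : ℝ) * X ^ (1 / 2 : ℝ) = X ^ (5 / 6 : ℝ) := by
    rw [← Real.rpow_add hX0]
    norm_num
  have e1 : 4 * ((Nat.primeCounting ⌊X ^ (1 / 2 : ℝ)⌋₊ : ℝ) / X ^ (1 / 2 : ℝ)) =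
      4 * X ^ (1 / 3 : ℝ) * (Nat.primeCounting ⌊X ^ (1 / 2 : ℝ)⌋₊ : ℝ) / X ^ (5 / 6 : ℝ) := by
    rw [← huv]
    field_simp
  have e2 : 7 / (Y : ℝ) = 6 / Y + 1 / Y := by ring
  rw [div_le_iff₀ hp, e2, add_mul]
  rw [e1] at h3
  have h4 : 4 * ((X ^ (1 / 3 : ℝ) + X ^ (1 / 2 : ℝ) + 1) / X ^ (5 / 6 : ℝ)) * X ^ (5 / 6 : ℝ) +
      4 * X ^ (1 / 3 : ℝ) * (Nat.primeCounting ⌊X ^ (1 / 2 : ℝ)⌋₊ : ℝ) ≤
      1 / Y * X ^ (5 / 6 : ℝ) := by
    have h5 := mul_le_mul_of_nonneg_right h3.le hp.le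
    rw [add_mul, div_mul_cancel₀ _ hp.ne'] at h5
    exact h5
  have h6 : 4 * ((X ^ (1 / 3 : ℝ) + X ^ (1 / 2 : ℝ) + 1) / X ^ (5 / 6 : ℝ)) * X ^ (5 / 6 : ℝ) =
      4 * (X ^ (1 / 3 : ℝ) + X ^ (1 / 2 : ℝ) + 1) := by
    rw [mul_assoc, div_mul_cancel₀ _ hp.ne']
  rw [h6] at h4
  have e3 : 6 / (Y : ℝ) * X ^ (5 / 6 : ℝ) = 2 * X ^ (5 / 6 : ℝ) / Y + 4 * X ^ (5 / 6 : ℝ) / Y := by
    ring
  rw [e3]
  linarith

end Pool.Agent.H828_SQ
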