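import Pool.Agent.H828_SQ.Euler
import Pool.Agent.H828_SQ.Tail

/-!
The asymptotic number of semistable curves with `|Δ| = m N`.
-/

set_option autoImplicit false

namespace Pool.Agent.H828_SQ

open Filter Topology

theorem sum_f (v : ℕ → ℕ) {n : ℕ} (hn : 4 ≤ n) :
    ∑ e ∈ E, ∏ p ∈ n.primesBelow, f e p (v p) = 12 * ∏ p ∈ n.primesBelow, F p (v p) := by
  have h2 : 2 ∈ n.primesBelow := Nat.mem_primesBelow.2 ⟨by omega, Nat.prime_two⟩
  have h3 : 3 ∈ (n.primesBelow).erase 2 :=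
    Finset.mem_erase.2 ⟨by norm_num, Nat.mem_primesBelow.2 ⟨by omega, Nat.prime_three⟩⟩
  have h5 : ∀ p ∈ ((n.primesBelow).erase 2).erase 3, 5 ≤ p := by
    intro p hp
    rw [Finset.mem_erase, Finset.mem_erase] at hp
    have hpp := Nat.prime_of_mem_primesBelow hp.2.2
    have := hpp.two_le
    have h4 : p ≠ 4 := by
      rintro rfl
      exact absurd hpp (by norm_num)
    omega
  have e1 : ∀ e ∈ E, ∏ p ∈ n.primesBelow, f e p (v p) = f e 2 (v 2) * f e 3 (v 3) *
      ∏ p ∈ ((n.primesBelow).erase 2).erase 3, F p (v p) := by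
    intro e _
    rw [← Finset.mul_prod_erase _ _ h2, ← Finset.mul_prod_erase _ _ h3, mul_assoc]
    congr 2
    refine Finset.prod_congr rfl fun p hp => ?_
    unfold f
    rw [if_pos (h5 p hp)]
  rw [Finset.sum_congr rfl e1, ← Finset.sum_mul, sum_two, ← Finset.mul_prod_erase _ _ h2,
    ← Finset.mul_prod_erase _ _ h3]
  ring

theorem sum_s2 : ∑ e ∈ E, s e 2 * s e 3 =
    12 * ((1 - 1 / ((2 : ℕ) : ℝ) ^ 2) * (1 - 1 / ((3 : ℕ) : ℝ) ^ 2)) := by
  unfold E
  simp only [Finset.sum_product]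
  rw [Finset.sum_pair (by norm_num), Finset.sum_insert (by norm_num), Finset.sum_pair (by norm_num),
    Finset.sum_insert (by norm_num), Finset.sum_pair (by norm_num)]
  simp only [Finset.sum_pair (show (0 : ℤ) ≠ 1 by norm_num)]
  simp [s, b2]
  norm_num

theorem sum_s {n : ℕ} (hn : 4 ≤ n) :
    ∑ e ∈ E, ∏ p ∈ n.primesBelow, s e p = 12 * ∏ p ∈ n.primesBelow, (1 - 1 / (p : ℝ) ^ 2) := by
  have h2 : 2 ∈ n.primesBelow := Nat.mem_primesBelow.2 ⟨by omega, Nat.prime_two⟩
  have h3 : 3 ∈ (n.primesBelow).erase 2 :=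
    Finset.mem_erase.2 ⟨by norm_num, Nat.mem_primesBelow.2 ⟨by omega, Nat.prime_three⟩⟩
  have h5 : ∀ p ∈ ((n.primesBelow).erase 2).erase 3, 5 ≤ p := by
    intro p hp
    rw [Finset.mem_erase, Finset.mem_erase] at hp
    have hpp := Nat.prime_of_mem_primesBelow hp.2.2
    have := hpp.two_le
    have h4 : p ≠ 4 := by
      rintro rfl
      exact absurd hpp (by norm_num)
    omega
  have e1 : ∀ e ∈ E, ∏ p ∈ n.primesBelow, s e p = s e 2 * s e 3 *
      ∏ p ∈ ((n.primesBelow).erase 2).erase 3, (1 - 1 / (p : ℝ) ^ 2) := by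
    intro e _
    rw [← Finset.mul_prod_erase _ _ h2, ← Finset.mul_prod_erase _ _ h3, mul_assoc]
    congr 2
    refine Finset.prod_congr rfl fun p hp => ?_
    unfold s
    rw [if_pos (h5 p hp)]
  rw [Finset.sum_congr rfl e1, ← Finset.sum_mul, sum_s2, ← Finset.mul_prod_erase _ _ h2,
    ← Finset.mul_prod_erase _ _ h3]
  ring

/-- the pairs of coefficients with a given condition on `(c₄, Δ)` -/
def Sel (Q : ℤ → ℤ → Prop) (e : ℤ × ℤ × ℤ) (X : ℝ) : Set (ℤ × ℤ) :=
  {z | z ∈ Reg e X ∧ Q (u4 e z.1) (D e z.1 z.2)}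

theorem sel_finite (Q : ℤ → ℤ → Prop) (e : ℤ × ℤ × ℤ) (X : ℝ) : (Sel Q e X).Finite :=
  (reg_finite e X).subset fun _ hz => hz.1

/-- the invariants `(c₄, c₆)` of the curves with a given condition on `(c₄, Δ)` -/
def Fam (Q : ℤ → ℤ → Prop) (X : ℝ) : Set (ℤ × ℤ) :=
  {g | ∃ W : WeierstrassCurve ℤ, Q W.c₄ W.Δ ∧ |(W.c₄ : ℝ)| ^ 3 ≤ X ∧ (W.c₆ : ℝ) ^ 2 ≤ X ∧
    (W.c₄, W.c₆) = g}

theorem fam_card (Q : ℤ → ℤ → Prop) (X : ℝ) :
    (Fam Q X).Finite ∧ (Fam Q X).ncard = ∑ e ∈ E, (Sel Q e X).ncard := by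
  classical
  have hset : Fam Q X = ⋃ e ∈ E, (fun z : ℤ × ℤ => (u4 e z.1, u6 e z.1 z.2)) '' (Sel Q e X) := by
    ext g
    simp only [Fam, Set.mem_ofPred_eq, Set.mem_iUnion, Set.mem_image]
    constructor
    · rintro ⟨W, h1, h2, h3, rfl⟩
      obtain ⟨e, he, x, y, h4, h5, h6⟩ := exists_reduced W
      refine ⟨e, he, (x, y), ⟨⟨?_, ?_⟩, ?_⟩, ?_⟩
      · rw [h4]
        exact h2
      · rw [h5]
        exact h3
      · rw [h4, h6]
        exact h1
      · simp only [h4, h5]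
    · rintro ⟨e, he, z, ⟨⟨h1, h2⟩, h3⟩, rfl⟩
      refine ⟨mk e z.1 z.2, ?_, ?_, ?_, ?_⟩
      · rw [c4_eq]
        exact h3
      · rw [c4_eq]
        exact h1
      · rw [c6_eq]
        exact h2
      · rw [c4_eq, c6_eq]
  have hfin : ∀ e, ((fun z : ℤ × ℤ => (u4 e z.1, u6 e z.1 z.2)) '' (Sel Q e X)).Finite :=
    fun e => (sel_finite Q e X).image _
  refine ⟨?_, ?_⟩
  · rw [hset]
    exact Set.Finite.biUnion (Finset.finite_toSet _) fun e _ => hfin e
  · rw [hset]
    have key : ∀ T : Finset (ℤ × ℤ × ℤ), T ⊆ E →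
        (⋃ e ∈ T, (fun z : ℤ × ℤ => (u4 e z.1, u6 e z.1 z.2)) '' (Sel Q e X)).ncard =
          ∑ e ∈ T, (Sel Q e X).ncard := by
      intro T
      induction T using Finset.induction_on with
      | empty => simp
      | insert a T ha ih =>
        intro hT
        have haE : a ∈ E := hT (Finset.mem_insert_self _ _)
        have hTE : T ⊆ E := (Finset.subset_insert _ _).trans hT
        have hd : Disjoint ((fun z : ℤ × ℤ => (u4 a z.1, u6 a z.1 z.2)) '' (Sel Q a X))
            (⋃ e ∈ T, (fun z : ℤ × ℤ => (u4 e z.1, u6 e z.1 z.2)) '' (Sel Q e X)) := by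
          rw [Set.disjoint_left]
          rintro w h1 h2
          simp only [Set.mem_image, Set.mem_iUnion] at h1 h2
          obtain ⟨z, _, rfl⟩ := h1
          obtain ⟨e, he, z', _, h3⟩ := h2
          rw [Prod.mk.injEq] at h3
          have h4 := (unique_reduced (hTE he) haE h3.1 h3.2).1
          exact ha (h4 ▸ he)
        have hf2 : (⋃ e ∈ T, (fun z : ℤ × ℤ => (u4 e z.1, u6 e z.1 z.2)) '' (Sel Q e X)).Finite :=
          Set.Finite.biUnion (Finset.finite_toSet _) fun e _ => hfin e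
        rw [Finset.set_biUnion_insert, Finset.sum_insert ha, Set.ncard_union_eq hd (hfin a) hf2,
          ih hTE, Set.ncard_image_of_injective]
        intro z z' h
        simp only [Prod.mk.injEq] at h
        have h4 := unique_reduced haE haE h.1 h.2
        exact Prod.ext h4.2.1 h4.2.2
    exact key _ (Finset.Subset.refl _)

theorem double_lim {G : ℝ → ℝ} {H : ℕ → ℝ → ℝ} {a : ℕ → ℝ} {l c : ℝ}
    (h1 : ∀ n, Tendsto (H n) atTop (𝓝 (a n))) (h2 : Tendsto a atTop (𝓝 l))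
    (h3 : ∀ᶠ n : ℕ in atTop, ∀ᶠ X in atTop, |G X - H n X| ≤ c / n) :
    Tendsto G atTop (𝓝 l) := by
  rw [Metric.tendsto_nhds]
  intro ε hε
  have hc : Tendsto (fun n : ℕ => c / (n : ℝ)) atTop (𝓝 0) :=
    tendsto_const_div_atTop_nhds_zero_nat c
  have h4 := hc.eventually (gt_mem_nhds (show (0 : ℝ) < ε / 3 by positivity))
  have h5 := (Metric.tendsto_nhds.1 h2) (ε / 3) (by positivity)
  obtain ⟨n, h6, h7, h8⟩ := (h3.and (h4.and h5)).exists
  filter_upwards [h6, (Metric.tendsto_nhds.1 (h1 n)) (ε / 3) (by positivity)] with X h9 h10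
  rw [Real.dist_eq] at *
  have h11 := abs_sub_le (G X) (H n X) l
  have h12 := abs_sub_le (H n X) (a n) l
  linarith

/-- the sieve: a condition which differs from the conditions at the primes below `n` only on the
pairs with a discriminant divisible by the square of a prime `≥ n` -/
theorem sieve {Q : ℤ → ℤ → Prop} {P : ℕ → (ℤ × ℤ × ℤ) → ℤ → ℤ → Prop}
    {d : ℕ → (ℤ × ℤ × ℤ) → ℝ} {l : ℝ}
    (hd : ∀ n, ∀ e ∈ E, HasDens e (P n e) (d n e))
    (hl : Tendsto (fun n => ∑ e ∈ E, d n e / 10368) atTop (𝓝 l))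
    (h1 : ∀ᶠ n in atTop, ∀ e ∈ E, ∀ X, Sel Q e X ⊆ Cut e (P n e) X)
    (h2 : ∀ᶠ n in atTop, ∀ e ∈ E, ∀ X, Cut e (P n e) X ⊆ Sel Q e X ∪ Bad e (n - 1) X) :
    Tendsto (fun X : ℝ => ((Fam Q X).ncard : ℝ) / X ^ (5 / 6 : ℝ)) atTop (𝓝 l) := by
  refine double_lim (H := fun n X => ∑ e ∈ E, ((Cut e (P n e) X).ncard : ℝ) / X ^ (5 / 6 : ℝ))
    (c := 168) (fun n => tendsto_finsetSum _ fun e he => hd n e he) hl ?_
  filter_upwards [h1, h2, eventually_ge_atTop 5] with n h1 h2 hn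
  have hb : ∀ᶠ X : ℝ in atTop, ∀ e ∈ E, ((Bad e (n - 1) X).ncard : ℝ) / X ^ (5 / 6 : ℝ) ≤
      7 / ((n - 1 : ℕ) : ℝ) := by
    rw [Finset.eventually_all]
    intro e _
    exact bad_small e (by omega)
  filter_upwards [hb, eventually_gt_atTop 0] with X hb hX
  have hp : 0 < X ^ (5 / 6 : ℝ) := Real.rpow_pos_of_pos hX _
  rw [(fam_card Q X).2]
  push_cast
  rw [Finset.sum_div, ← Finset.sum_sub_distrib]
  refine (Finset.abs_sum_le_sum_abs _ _).trans ?_
  have h3 : ∀ e ∈ E, |((Sel Q e X).ncard : ℝ) / X ^ (5 / 6 : ℝ) -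
      ((Cut e (P n e) X).ncard : ℝ) / X ^ (5 / 6 : ℝ)| ≤ 14 / n := by
    intro e he
    have h4 : (Sel Q e X).ncard ≤ (Cut e (P n e) X).ncard :=
      Set.ncard_le_ncard (h1 e he X) (cut_finite _ _ _)
    have h5 : (Cut e (P n e) X).ncard ≤ (Sel Q e X).ncard + (Bad e (n - 1) X).ncard := by
      refine (Set.ncard_le_ncard (h2 e he X) ((sel_finite _ _ _).union ?_)).trans
        (Set.ncard_union_le _ _)
      exact (reg_finite e X).subset fun z hz => hz.1
    have h4' : ((Sel Q e X).ncard : ℝ) ≤ (Cut e (P n e) X).ncard := by exact_mod_cast h4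
    have h5' : ((Cut e (P n e) X).ncard : ℝ) ≤ (Sel Q e X).ncard + (Bad e (n - 1) X).ncard := by
      exact_mod_cast h5
    rw [← sub_div, abs_div, abs_of_pos hp, abs_sub_comm, abs_of_nonneg (by linarith)]
    have h6 : (((Cut e (P n e) X).ncard : ℝ) - (Sel Q e X).ncard) / X ^ (5 / 6 : ℝ) ≤
        ((Bad e (n - 1) X).ncard : ℝ) / X ^ (5 / 6 : ℝ) :=
      div_le_div_of_nonneg_right (by linarith) hp.le
    refine h6.trans ((hb e he).trans ?_)
    have hn' : (5 : ℝ) ≤ n := by exact_mod_cast hn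
    rw [Nat.cast_sub (by omega), Nat.cast_one, div_le_div_iff₀ (by linarith) (by linarith)]
    linarith
  refine (Finset.sum_le_sum h3).trans ?_
  rw [Finset.sum_const, nsmul_eq_mul]
  have : E.card = 12 := by decide
  rw [this]
  apply le_of_eq
  push_cast
  ring

theorem zero_bad {e : ℤ × ℤ × ℤ} {n : ℕ} {X : ℝ} {z : ℤ × ℤ} (hz : z ∈ Reg e X)
    (h0 : D e z.1 z.2 = 0) : z ∈ Bad e n X := by
  obtain ⟨p, hp, hpp⟩ := Nat.exists_infinite_primes (n + 1)
  refine ⟨hz, p, hpp, by omega, ?_⟩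
  rw [h0]
  exact dvd_zero _

/-- additive reduction at a prime `p ≥ 5` -/
theorem sq_dvd_of_ZP {e : ℤ × ℤ × ℤ} {x y : ℤ} {p : ℕ} (hp : p.Prime) (h5 : 5 ≤ p)
    (h : ZP p e x y) : (p : ℤ) ^ 2 ∣ D e x y := by
  have hp' : Prime (p : ℤ) := Nat.prime_iff_prime_int.1 hp
  have hr := rel e x y
  have h6 : (p : ℤ) ∣ u6 e x y := by
    have h7 : (p : ℤ) ∣ u6 e x y ^ 2 := by
      have h10 : u6 e x y ^ 2 = u4 e x ^ 3 - 1728 * D e x y := by linarith
      rw [h10]
      exact dvd_sub (dvd_pow h.1 (by norm_num)) (h.2.mul_left _)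
    exact hp'.dvd_of_dvd_pow h7
  have h8 : (p : ℤ) ^ 2 ∣ 1728 * D e x y := by
    rw [hr]
    exact dvd_sub ((pow_dvd_pow_of_dvd h.1 3) |> fun h => (pow_dvd_pow _ (by norm_num)).trans h)
      (pow_dvd_pow_of_dvd h6 2)
  have hc : IsCoprime ((p : ℤ) ^ 2) 1728 := by
    have h6 : Nat.Coprime 1728 (p ^ 2) := six_coprime hp h5 2 6 (by norm_num)
    have h7 := Nat.isCoprime_iff_coprime.2 h6.symm
    push_cast at h7
    exact h7
  exact hc.dvd_of_dvd_mul_left h8

/-- semistable curves -/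
def Qs (c Δ : ℤ) : Prop := Δ ≠ 0 ∧ IsCoprime c Δ

/-- semistable curves with `|Δ| = m N` -/
def Qm (m : ℕ) (c Δ : ℤ) : Prop :=
  Δ ≠ 0 ∧ IsCoprime c Δ ∧ Δ.natAbs = m * ∏ p ∈ Δ.natAbs.primeFactors, p

theorem coprime_iff {c Δ : ℤ} (h0 : Δ ≠ 0) :
    IsCoprime c Δ ↔ ∀ p : ℕ, p.Prime → ¬ ((p : ℤ) ∣ c ∧ (p : ℤ) ∣ Δ) := by
  constructor
  · rintro h p hp ⟨h1, h2⟩
    have hp' : Prime (p : ℤ) := Nat.prime_iff_prime_int.1 hp
    exact hp'.not_isUnit (h.isUnit_of_dvd' h1 h2)
  · intro h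
    rw [Int.isCoprime_iff_gcd_eq_one]
    by_contra h1
    obtain ⟨p, hp, hpd⟩ := Nat.exists_prime_and_dvd h1
    exact h p hp ⟨Int.natCast_dvd.2 (hpd.trans (Int.gcd_dvd_natAbs_left _ _)) , Int.natCast_dvd.2 (hpd.trans (Int.gcd_dvd_natAbs_right _ _))⟩

theorem rad_factorization (n p : ℕ) (hp : p.Prime) :
    (∏ q ∈ n.primeFactors, q).factorization p = if p ∈ n.primeFactors then 1 else 0 := by
  classical
  rw [Nat.factorization_prod fun q hq => (Nat.prime_of_mem_primeFactors hq).ne_zero]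
  rw [Finsupp.finsetSum_apply]
  have h : ∀ q ∈ n.primeFactors, q.factorization p = if q = p then 1 else 0 := by
    intro q hq
    rw [(Nat.prime_of_mem_primeFactors hq).factorization, Finsupp.single_apply]
  rw [Finset.sum_congr rfl h, Finset.sum_ite_eq']

theorem Qm_iff {m : ℕ} (hm : m ≠ 0) {e : ℤ × ℤ × ℤ} {x y : ℤ} (h0 : D e x y ≠ 0) :
    Qm m (u4 e x) (D e x y) ↔ ∀ p : ℕ, p.Prime → L p (m.factorization p) e x y := by
  have hn0 : (D e x y).natAbs ≠ 0 := Int.natAbs_ne_zero.2 h0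
  have hR0 : (∏ p ∈ (D e x y).natAbs.primeFactors, p) ≠ 0 :=
    Finset.prod_ne_zero_iff.2 fun q hq => (Nat.prime_of_mem_primeFactors hq).ne_zero
  have hdvd : ∀ (p k : ℕ), p.Prime → ((p : ℤ) ^ k ∣ D e x y ↔
      k ≤ (D e x y).natAbs.factorization p) := by
    intro p k hp
    rw [← hp.pow_dvd_iff_le_factorization hn0, ← Int.natCast_dvd]
    push_cast
    rfl
  have hdvd1 : ∀ p : ℕ, p.Prime → ((p : ℤ) ∣ D e x y ↔
      1 ≤ (D e x y).natAbs.factorization p) := by
    intro p hp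
    have := hdvd p 1 hp
    rwa [pow_one] at this
  have hmem : ∀ p : ℕ, p.Prime → (p ∈ (D e x y).natAbs.primeFactors ↔
      1 ≤ (D e x y).natAbs.factorization p) := by
    intro p hp
    rw [← Nat.support_factorization, Finsupp.mem_support_iff]
    omega
  constructor
  · rintro ⟨_, h1, h2⟩ p hp
    have h3 := (coprime_iff h0).1 h1 p hp
    have h4 : (D e x y).natAbs.factorization p = m.factorization p +
        if p ∈ (D e x y).natAbs.primeFactors then 1 else 0 := by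
      rw [← rad_factorization _ p hp]
      conv_lhs => rw [h2]
      rw [Nat.factorization_mul hm hR0, Finsupp.add_apply]
    unfold L ZP EP
    rw [hdvd p 2 hp, hdvd p _ hp, hdvd p _ hp, hdvd1 p hp]
    rw [hdvd1 p hp] at h3
    simp only [hmem p hp] at h4
    by_cases hj : m.factorization p = 0
    · rw [if_pos hj]
      rw [hj] at h4
      split_ifs at h4 with h5
      · exact ⟨by omega, h3⟩
      · exact ⟨by omega, h3⟩
    · rw [if_neg hj]
      split_ifs at h4 with h5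
      · refine ⟨⟨fun h6 => h3 ⟨h6, h5⟩, by omega⟩, fun h6 => ?_⟩
        have := h6.2
        omega
      · exfalso
        omega
  · intro h
    refine ⟨h0, (coprime_iff h0).2 fun p hp => ?_, ?_⟩
    · have h1 := h p hp
      unfold L ZP EP at h1
      split_ifs at h1 with h2
      · exact h1.2
      · exact fun h3 => h1.1.1 h3.1
    · refine Nat.eq_of_factorization_eq hn0 (mul_ne_zero hm hR0) fun p => ?_
      by_cases hp : p.Prime
      · rw [Nat.factorization_mul hm hR0, Finsupp.add_apply, rad_factorization _ p hp]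
        simp only [hmem p hp]
        have h1 := h p hp
        unfold L ZP EP at h1
        rw [hdvd p 2 hp, hdvd p _ hp, hdvd p _ hp, hdvd1 p hp] at h1
        split_ifs at h1 with h2
        · rw [h2]
          split_ifs with h3
          · have := h1.1
            omega
          · omega
        · obtain ⟨⟨h3, h4⟩, h5⟩ := h1
          have h6 : ¬ m.factorization p + 2 ≤ (D e x y).natAbs.factorization p :=
            fun h7 => h5 ⟨h3, h7⟩
          split_ifs with h7 <;> omega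
      · rw [Nat.factorization_eq_zero_of_not_prime _ hp, Nat.factorization_eq_zero_of_not_prime _ hp]

/-- the number of semistable curves with `|Δ| = m N` -/
theorem lim_m {m : ℕ} (hm : m ≠ 0) :
    Tendsto (fun X : ℝ => ((Fam (Qm m) X).ncard : ℝ) / X ^ (5 / 6 : ℝ)) atTop
      (𝓝 (1 / (144 * Real.pi ^ 2) * law m)) := by
  refine sieve (P := fun n e x y => ∀ p ∈ n.primesBelow, L p (m.factorization p) e x y)
    (d := fun n e => ∏ p ∈ n.primesBelow, f e p (m.factorization p)) ?_ ?_ ?_ ?_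
  · intro n e he
    exact all_dens he n.primesBelow (fun p hp => Nat.prime_of_mem_primesBelow hp) _
  · have h1 := (F_lim hm).const_mul (12 / 10368 : ℝ)
    have e1 : 12 / 10368 * (6 / Real.pi ^ 2 * (C0 * g m)) = 1 / (144 * Real.pi ^ 2) * law m := by
      unfold law
      have := Real.pi_pos
      field_simp
      ring
    rw [e1] at h1
    refine h1.congr' ?_
    filter_upwards [eventually_ge_atTop 4] with n hn
    rw [← Finset.sum_div, sum_f _ hn]
    ring
  · refine Eventually.of_forall fun n e _ X z hz => ?_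
    have h0 : D e z.1 z.2 ≠ 0 := hz.2.1
    exact ⟨hz.1, fun p hp => (Qm_iff hm h0).1 hz.2 p (Nat.prime_of_mem_primesBelow hp)⟩
  · filter_upwards [eventually_gt_atTop m, eventually_ge_atTop 5] with n hn hn5 e _ X z hz
    by_cases h0 : D e z.1 z.2 = 0
    · exact Or.inr (zero_bad hz.1 h0)
    by_cases h1 : ∀ p : ℕ, p.Prime → L p (m.factorization p) e z.1 z.2
    · exact Or.inl ⟨hz.1, (Qm_iff hm h0).2 h1⟩
    · right
      push Not at h1
      obtain ⟨p, hp, h2⟩ := h1
      have h3 : n ≤ p := by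
        by_contra h3
        exact h2 (hz.2 p (Nat.mem_primesBelow.2 ⟨by omega, hp⟩))
      have h4 : m.factorization p = 0 := by
        refine Nat.factorization_eq_zero_of_not_dvd fun h5 => ?_
        have := Nat.le_of_dvd (Nat.pos_of_ne_zero hm) h5
        omega
      unfold L at h2
      rw [if_pos h4, not_and_or, not_not, not_not] at h2
      refine ⟨hz.1, p, hp, by omega, ?_⟩
      rcases h2 with h2 | h2
      · exact h2
      · exact sq_dvd_of_ZP hp (by omega) h2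

/-- the number of semistable curves -/
theorem lim_all :
    Tendsto (fun X : ℝ => ((Fam Qs X).ncard : ℝ) / X ^ (5 / 6 : ℝ)) atTop
      (𝓝 (1 / (144 * Real.pi ^ 2))) := by
  refine sieve (P := fun n e x y => ∀ p ∈ n.primesBelow, ¬ ZP p e x y)
    (d := fun n e => ∏ p ∈ n.primesBelow, s e p) ?_ ?_ ?_ ?_
  · intro n e he
    exact all_ss he n.primesBelow (fun p hp => Nat.prime_of_mem_primesBelow hp)
  · have h1 := zeta_lim.const_mul (12 / 10368 : ℝ)
    have e1 : 12 / 10368 * (6 / Real.pi ^ 2) = 1 / (144 * Real.pi ^ 2) := by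
      have := Real.pi_pos
      field_simp
      norm_num
    rw [e1] at h1
    refine h1.congr' ?_
    filter_upwards [eventually_ge_atTop 4] with n hn
    rw [← Finset.sum_div, sum_s hn]
    ring
  · refine Eventually.of_forall fun n e _ X z hz => ?_
    have h0 : D e z.1 z.2 ≠ 0 := hz.2.1
    exact ⟨hz.1, fun p hp => (coprime_iff h0).1 hz.2.2 p (Nat.prime_of_mem_primesBelow hp)⟩
  · filter_upwards [eventually_ge_atTop 5] with n hn5 e _ X z hz
    by_cases h0 : D e z.1 z.2 = 0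
    · exact Or.inr (zero_bad hz.1 h0)
    by_cases h1 : IsCoprime (u4 e z.1) (D e z.1 z.2)
    · exact Or.inl ⟨hz.1, h0, h1⟩
    · right
      rw [coprime_iff h0] at h1
      push Not at h1
      obtain ⟨p, hp, h2⟩ := h1
      have h3 : n ≤ p := by
        by_contra h3
        exact hz.2 p (Nat.mem_primesBelow.2 ⟨by omega, hp⟩) h2
      exact ⟨hz.1, p, hp, by omega, sq_dvd_of_ZP hp (by omega) h2⟩

end Pool.Agent.H828_SQ
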