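import Pool.Agent.H828_SQ.Loc

/-!
The local conditions for all primes and the sums over the twelve triples of parameters.
-/

set_option autoImplicit false

namespace Pool.Agent.H828_SQ

open Filter Topology

/-- semistable at `p` with `v_p (Δ) = j + 1`, or `≤ 1` if `j = 0` -/
def L (p j : ℕ) (e : ℤ × ℤ × ℤ) (x y : ℤ) : Prop :=
  if j = 0 then ¬ (p : ℤ) ^ 2 ∣ D e x y ∧ ¬ ZP p e x y
  else EP p (j + 1) e x y ∧ ¬ EP p (j + 2) e x y

noncomputable def F (p j : ℕ) : ℝ :=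
  if j = 0 then ((p : ℝ) - 1) * ((p : ℝ) ^ 2 + p - 1) / (p : ℝ) ^ 3
  else ((p : ℝ) - 1) ^ 2 / (p : ℝ) ^ (j + 3)

open Classical in
noncomputable def f (e : ℤ × ℤ × ℤ) (p j : ℕ) : ℝ :=
  if 5 ≤ p then F p j else
  if ¬ (p : ℤ) ∣ b2 e then
    (if j = 0 then 1 - 1 / (p : ℝ) ^ 2 else 1 / (p : ℝ) ^ (j + 1) - 1 / (p : ℝ) ^ (j + 2))
  else if j ≠ 0 then 0 else if p = 2 then (if e.2.2 = 1 then 1 else 0) else 2 / 3

open Classical in
noncomputable def s (e : ℤ × ℤ × ℤ) (p : ℕ) : ℝ :=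
  if 5 ≤ p then 1 - 1 / (p : ℝ) ^ 2 else
  if ¬ (p : ℤ) ∣ b2 e then 1
  else if p = 2 then (if e.2.2 = 1 then 1 else 0) else 2 / 3

theorem EP_mono {p k k' : ℕ} (h : k ≤ k') (e : ℤ × ℤ × ℤ) (x y : ℤ) (hE : EP p k' e x y) :
    EP p k e x y := ⟨hE.1, (pow_dvd_pow _ h).trans hE.2⟩

/-- at `2` with even `b₂` -/
theorem two_even {e : ℤ × ℤ × ℤ} (he : e ∈ E) (hb : (2 : ℤ) ∣ b2 e) (x y : ℤ) :
    (2 : ℤ) ∣ D e x y ↔ ¬ e.2.2 = 1 := by
  obtain ⟨a1, a2, a3⟩ := e
  simp only [E, Finset.mem_product, Finset.mem_insert, Finset.mem_singleton] at he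
  obtain ⟨h1, h2, h3⟩ := he
  unfold b2 at hb
  simp only at hb
  have ha1 : a1 = 0 := by
    rcases h1 with h1 | h1
    · exact h1
    · subst h1
      omega
  subst ha1
  rw [D_eq]
  simp only [b2, be]
  rcases h3 with rfl | rfl
  · have : ∃ w : ℤ, -432 * y ^ 2 + (-((0 : ℤ) ^ 2 + 4 * a2) ^ 3 + 36 * ((0 : ℤ) ^ 2 + 4 * a2) * 0 * 0 - 216 * 0 ^ 2 + 72 * ((0 : ℤ) ^ 2 + 4 * a2) * x) * y +
        (-((0 : ℤ) ^ 2 + 4 * a2) ^ 2 * (-(0 * 0 * x) + a2 * 0 ^ 2 - x ^ 2) - 8 * (2 * x + 0 * 0) ^ 3 - 27 * 0 ^ 4 + 9 * ((0 : ℤ) ^ 2 + 4 * a2) * (2 * x + 0 * 0) * 0 ^ 2) = 2 * w := by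
      refine ⟨-216 * y ^ 2 + (-32 * a2 ^ 3 + 144 * a2 * x) * y + 8 * a2 ^ 2 * x ^ 2 - 32 * x ^ 3, ?_⟩
      ring
    obtain ⟨w, hw⟩ := this
    rw [hw]
    simp
  · have : ∃ w : ℤ, -432 * y ^ 2 + (-((0 : ℤ) ^ 2 + 4 * a2) ^ 3 + 36 * ((0 : ℤ) ^ 2 + 4 * a2) * 0 * 1 - 216 * 1 ^ 2 + 72 * ((0 : ℤ) ^ 2 + 4 * a2) * x) * y +
        (-((0 : ℤ) ^ 2 + 4 * a2) ^ 2 * (-(0 * 1 * x) + a2 * 1 ^ 2 - x ^ 2) - 8 * (2 * x + 0 * 1) ^ 3 - 27 * 1 ^ 4 + 9 * ((0 : ℤ) ^ 2 + 4 * a2) * (2 * x + 0 * 1) * 1 ^ 2) = 2 * w + 1 := by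
      refine ⟨-216 * y ^ 2 + (-32 * a2 ^ 3 - 108 + 144 * a2 * x) * y - 8 * a2 ^ 2 * (a2 - x ^ 2) - 32 * x ^ 3 - 14 + 36 * a2 * x, ?_⟩
      ring
    obtain ⟨w, hw⟩ := this
    rw [hw]
    simp only [not_true_eq_false, iff_false]
    omega

/-- at `3` with `3 ∣ b₂` -/
theorem three_zero {e : ℤ × ℤ × ℤ} (hb : (3 : ℤ) ∣ b2 e) (x y : ℤ) :
    (3 : ℤ) ∣ D e x y ↔ (3 : ℤ) ∣ 2 * x + e.1 * e.2.2 := by
  obtain ⟨c, hc⟩ := hb
  have h1 : D e x y = 3 * (-144 * y ^ 2 + (-9 * c ^ 3 + 36 * c * e.1 * e.2.2 - 72 * e.2.2 ^ 2 +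
      72 * c * x) * y - 3 * c ^ 2 * (-(e.1 * e.2.2 * x) + e.2.1 * e.2.2 ^ 2 - x ^ 2) -
      9 * e.2.2 ^ 4 + 9 * c * (2 * x + e.1 * e.2.2) * e.2.2 ^ 2 - 3 * (2 * x + e.1 * e.2.2) ^ 3) +
      (2 * x + e.1 * e.2.2) ^ 3 := by
    rw [D_eq]
    unfold be
    rw [hc]
    ring
  have h3 : Prime (3 : ℤ) := Int.prime_three
  rw [h1, Int.dvd_add_right (dvd_mul_right _ _)]
  exact ⟨fun h => h3.dvd_of_dvd_pow h, fun h => dvd_pow h (by norm_num)⟩

theorem three_dens {e : ℤ × ℤ × ℤ} (hb : (3 : ℤ) ∣ b2 e) :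
    HasDens e (fun x y => ¬ (3 : ℤ) ∣ D e x y) (2 / 3) := by
  classical
  have h1 : HasDens e (fun x y => (3 : ℤ) ∣ D e x y) (1 / 3) := by
    have hT : Per 3 (fun x y => (3 : ℤ) ∣ D e x y)
        (Finset.univ.filter fun z : ZMod 3 × ZMod 3 => z.1 = e.1 * e.2.2) := by
      intro x y
      change (3 : ℤ) ∣ D e x y ↔ _
      rw [three_zero hb, Finset.mem_filter]
      simp only [Finset.mem_univ, true_and]
      have h2 : ((2 * x + e.1 * e.2.2 : ℤ) : ZMod 3) = 0 ↔ (3 : ℤ) ∣ 2 * x + e.1 * e.2.2 :=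
        ZMod.intCast_zmod_eq_zero_iff_dvd _ 3
      rw [← h2]
      push_cast
      generalize (x : ZMod 3) = a
      generalize (e.1 : ZMod 3) * (e.2.2 : ZMod 3) = b
      revert a b
      decide
    have hd := per_dens e hT
    have hcard : (Finset.univ.filter fun z : ZMod 3 × ZMod 3 => z.1 = e.1 * e.2.2).card = 3 := by
      generalize (e.1 : ZMod 3) * (e.2.2 : ZMod 3) = b
      revert b
      decide
    rw [hcard] at hd
    norm_num at hd ⊢
    exact hd
  have h2 := h1.not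
  norm_num at h2 ⊢
  exact h2

theorem loc_dens {e : ℤ × ℤ × ℤ} (he : e ∈ E) {p : ℕ} (hp : p.Prime) (j : ℕ) :
    HasDens e (L p j e) (f e p j) := by
  classical
  have hp0 : (p : ℝ) ≠ 0 := by exact_mod_cast hp.ne_zero
  by_cases h5 : 5 ≤ p
  · unfold f
    rw [if_pos h5]
    unfold F
    by_cases hj : j = 0
    · rw [if_pos hj]
      have h1 := ((dens_ZP hp h5 e).add (dens_EP hp h5 e (k := 2) (by norm_num))
        (fun x y h1 h2 => h2.1 h1.1)).not
      have e1 : 1 - (1 / (p : ℝ) ^ 2 + ((p : ℝ) - 1) / (p : ℝ) ^ (2 + 1)) =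
          ((p : ℝ) - 1) * ((p : ℝ) ^ 2 + p - 1) / (p : ℝ) ^ 3 := by
        field_simp
        ring
      rw [e1] at h1
      refine h1.congr fun x y => ?_
      unfold L
      rw [if_pos hj]
      have h2 : (p : ℤ) ^ 2 ∣ D e x y → (p : ℤ) ∣ D e x y := fun h =>
        (dvd_pow_self _ (by norm_num)).trans h
      unfold EP ZP
      tauto
    · rw [if_neg hj]
      have h1 := (dens_EP hp h5 e (k := j + 1) (by omega)).diff
        (dens_EP hp h5 e (k := j + 2) (by omega)) (fun x y h => EP_mono (by omega) e x y h)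
      have e1 : ((p : ℝ) - 1) / (p : ℝ) ^ (j + 1 + 1) - ((p : ℝ) - 1) / (p : ℝ) ^ (j + 2 + 1) =
          ((p : ℝ) - 1) ^ 2 / (p : ℝ) ^ (j + 3) := by
        field_simp
        ring
      rw [e1] at h1
      refine h1.congr fun x y => ?_
      unfold L
      rw [if_neg hj]
  · have h23 : p = 2 ∨ p = 3 := by
      have h2 := hp.two_le
      have h4 : p ≠ 4 := by
        rintro rfl
        exact absurd hp (by norm_num)
      omega
    unfold f
    rw [if_neg h5]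
    by_cases hb : (p : ℤ) ∣ b2 e
    · rw [if_neg (not_not.2 hb)]
      have h4 : ∀ x, (p : ℤ) ∣ u4 e x := fun x => (b2_mod e x h23).2 hb
      by_cases hj : j = 0
      · rw [if_neg (not_not.2 hj)]
        have hL : ∀ x y, L p j e x y ↔ ¬ (p : ℤ) ∣ D e x y := by
          intro x y
          unfold L ZP
          rw [if_pos hj]
          have h2 : (p : ℤ) ^ 2 ∣ D e x y → (p : ℤ) ∣ D e x y := fun h =>
            (dvd_pow_self _ (by norm_num)).trans h
          have := h4 x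
          tauto
        rcases h23 with rfl | rfl
        · rw [if_pos rfl]
          by_cases h3 : e.2.2 = 1
          · rw [if_pos h3]
            refine hasDens_true.congr fun x y => ?_
            rw [hL]
            have := two_even he hb x y
            push_cast
            rw [this]
            simp [h3]
          · rw [if_neg h3]
            refine hasDens_false.congr fun x y => ?_
            rw [hL]
            have := two_even he hb x y
            push_cast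
            rw [this]
            simp [h3]
        · rw [if_neg (by norm_num)]
          exact (three_dens hb).congr fun x y => (hL x y).symm
      · rw [if_pos hj]
        refine hasDens_false.congr fun x y => ?_
        unfold L EP
        rw [if_neg hj]
        have := h4 x
        tauto
    · rw [if_pos hb]
      have h4 : ∀ x, ¬ (p : ℤ) ∣ u4 e x := fun x h => hb ((b2_mod e x h23).1 h)
      by_cases hj : j = 0
      · rw [if_pos hj]
        refine (dens_D_small e h23 hb (k := 2) (by norm_num)).not.congr fun x y => ?_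
        unfold L ZP
        rw [if_pos hj]
        have := h4 x
        tauto
      · rw [if_neg hj]
        refine ((dens_D_small e h23 hb (k := j + 1) (by omega)).diff
          (dens_D_small e h23 hb (k := j + 2) (by omega))
          (fun x y h => (pow_dvd_pow _ (by omega)).trans h)).congr fun x y => ?_
        unfold L EP
        rw [if_neg hj]
        have := h4 x
        tauto

theorem ss_dens {e : ℤ × ℤ × ℤ} (he : e ∈ E) {p : ℕ} (hp : p.Prime) :
    HasDens e (fun x y => ¬ ZP p e x y) (s e p) := by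
  classical
  by_cases h5 : 5 ≤ p
  · unfold s
    rw [if_pos h5]
    exact (dens_ZP hp h5 e).not
  · have h23 : p = 2 ∨ p = 3 := by
      have h2 := hp.two_le
      have h4 : p ≠ 4 := by
        rintro rfl
        exact absurd hp (by norm_num)
      omega
    unfold s
    rw [if_neg h5]
    by_cases hb : (p : ℤ) ∣ b2 e
    · rw [if_neg (not_not.2 hb)]
      have h4 : ∀ x, (p : ℤ) ∣ u4 e x := fun x => (b2_mod e x h23).2 hb
      have hL : ∀ x y, ¬ ZP p e x y ↔ ¬ (p : ℤ) ∣ D e x y := by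
        intro x y
        unfold ZP
        have := h4 x
        tauto
      rcases h23 with rfl | rfl
      · rw [if_pos rfl]
        by_cases h3 : e.2.2 = 1
        · rw [if_pos h3]
          refine hasDens_true.congr fun x y => ?_
          rw [hL]
          have := two_even he hb x y
          push_cast
          rw [this]
          simp [h3]
        · rw [if_neg h3]
          refine hasDens_false.congr fun x y => ?_
          rw [hL]
          have := two_even he hb x y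
          push_cast
          rw [this]
          simp [h3]
      · rw [if_neg (by norm_num)]
        exact (three_dens hb).congr fun x y => (hL x y).symm
    · rw [if_pos hb]
      have h4 : ∀ x, ¬ (p : ℤ) ∣ u4 e x := fun x h => hb ((b2_mod e x h23).1 h)
      refine hasDens_true.congr fun x y => ?_
      unfold ZP
      have := h4 x
      tauto

theorem per_inv {M : ℕ} [NeZero M] {P : ℤ → ℤ → Prop}
    (h : ∀ x x' y y' : ℤ, (M : ℤ) ∣ x - x' → (M : ℤ) ∣ y - y' → P x y → P x' y') :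
    ∃ T : Finset (ZMod M × ZMod M), Per M P T := by
  classical
  refine ⟨Finset.univ.filter fun z => P (z.1.val : ℤ) (z.2.val : ℤ), fun x y => ?_⟩
  simp only [Finset.mem_filter, Finset.mem_univ, true_and]
  have hv : ∀ x : ℤ, (M : ℤ) ∣ x - (((x : ZMod M).val : ℕ) : ℤ) := by
    intro x
    rw [← ZMod.intCast_zmod_eq_zero_iff_dvd]
    push_cast
    rw [ZMod.natCast_zmod_val, sub_self]
  have hv' : ∀ x : ℤ, (M : ℤ) ∣ (((x : ZMod M).val : ℕ) : ℤ) - x := by
    intro x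
    rw [← neg_sub, dvd_neg]
    exact hv x
  exact ⟨h _ _ _ _ (hv x) (hv y), h _ _ _ _ (hv' x) (hv' y)⟩

theorem D_cong (e : ℤ × ℤ × ℤ) {M x x' y y' : ℤ} (hx : M ∣ x - x') (hy : M ∣ y - y') :
    M ∣ D e x y - D e x' y' := by
  obtain ⟨a, ha⟩ := hx
  obtain ⟨b, hb⟩ := hy
  have hx : x = x' + M * a := by linarith
  have hy : y = y' + M * b := by linarith
  rw [D_eq, D_eq, hx, hy]
  refine ⟨-432 * (2 * y' * b + M * b ^ 2) + (be e + 72 * b2 e * (x' + M * a)) * b +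
    72 * b2 e * a * y' - b2 e ^ 2 * (-(e.1 * e.2.2 * a) - (2 * x' * a + M * a ^ 2)) -
    8 * (2 * a) * ((2 * (x' + M * a) + e.1 * e.2.2) ^ 2 + (2 * (x' + M * a) + e.1 * e.2.2) *
      (2 * x' + e.1 * e.2.2) + (2 * x' + e.1 * e.2.2) ^ 2) + 9 * b2 e * (2 * a) * e.2.2 ^ 2, ?_⟩
  ring

theorem u4_cong (e : ℤ × ℤ × ℤ) {M x x' : ℤ} (hx : M ∣ x - x') : M ∣ u4 e x - u4 e x' := by
  obtain ⟨a, ha⟩ := hx
  refine ⟨-48 * a, ?_⟩
  unfold u4
  linear_combination (-48) * ha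

theorem dvd_cong {q M a b : ℤ} (hq : q ∣ M) (h : M ∣ a - b) : q ∣ a ↔ q ∣ b := by
  have h1 : q ∣ a - b := hq.trans h
  constructor
  · intro h2
    have := dvd_sub h2 h1
    rwa [sub_sub_cancel] at this
  · intro h2
    have := dvd_add h1 h2
    rwa [sub_add_cancel] at this

theorem L_per (e : ℤ × ℤ × ℤ) {p : ℕ} (hp : p.Prime) (j : ℕ) :
    ∃ T : Finset (ZMod (p ^ (j + 2)) × ZMod (p ^ (j + 2))), Per (p ^ (j + 2)) (L p j e) T := by
  have : NeZero (p ^ (j + 2)) := ⟨pow_ne_zero _ hp.ne_zero⟩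
  refine per_inv fun x x' y y' hx hy => ?_
  have h1 := D_cong e hx hy
  have h2 := u4_cong e hx
  have hd : ∀ i, i ≤ j + 2 → ((p : ℤ) ^ i ∣ D e x y ↔ (p : ℤ) ^ i ∣ D e x' y') := fun i hi =>
    dvd_cong (by push_cast; exact pow_dvd_pow _ hi) h1
  have hu : (p : ℤ) ∣ u4 e x ↔ (p : ℤ) ∣ u4 e x' :=
    dvd_cong (by push_cast; exact dvd_pow_self _ (by omega)) h2
  have hd1 : (p : ℤ) ∣ D e x y ↔ (p : ℤ) ∣ D e x' y' := by
    have := hd 1 (by omega)
    rwa [pow_one] at this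
  unfold L ZP EP
  rw [hd 2 (by omega), hd (j + 1) (by omega), hd (j + 2) le_rfl, hu, hd1]
  exact id

theorem ss_per (e : ℤ × ℤ × ℤ) {p : ℕ} (hp : p.Prime) :
    ∃ T : Finset (ZMod (p ^ 1) × ZMod (p ^ 1)), Per (p ^ 1) (fun x y => ¬ ZP p e x y) T := by
  have : NeZero (p ^ 1) := ⟨pow_ne_zero _ hp.ne_zero⟩
  refine per_inv fun x x' y y' hx hy => ?_
  have h1 := D_cong e hx hy
  have h2 := u4_cong e hx
  have hd1 : (p : ℤ) ∣ D e x y ↔ (p : ℤ) ∣ D e x' y' :=
    dvd_cong (by push_cast; rw [pow_one]) h1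
  have hu : (p : ℤ) ∣ u4 e x ↔ (p : ℤ) ∣ u4 e x' :=
    dvd_cong (by push_cast; rw [pow_one]) h2
  unfold ZP
  rw [hu, hd1]
  exact id

theorem all_dens {e : ℤ × ℤ × ℤ} (he : e ∈ E) (S : Finset ℕ) (hS : ∀ p ∈ S, p.Prime)
    (v : ℕ → ℕ) : HasDens e (fun x y => ∀ p ∈ S, L p (v p) e x y) (∏ p ∈ S, f e p (v p)) :=
  (forall_dens e S (fun p => L p (v p) e) (fun p => v p + 2) (fun p => f e p (v p)) hS
    (fun p hp => L_per e (hS p hp) (v p)) fun p hp => loc_dens he (hS p hp) (v p)).2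

theorem all_ss {e : ℤ × ℤ × ℤ} (he : e ∈ E) (S : Finset ℕ) (hS : ∀ p ∈ S, p.Prime) :
    HasDens e (fun x y => ∀ p ∈ S, ¬ ZP p e x y) (∏ p ∈ S, s e p) :=
  (forall_dens e S (fun p x y => ¬ ZP p e x y) (fun _ => 1) (fun p => s e p) hS
    (fun p hp => ss_per e (hS p hp)) fun p hp => ss_dens he (hS p hp)).2

theorem sum_two (i j : ℕ) : ∑ e ∈ E, f e 2 i * f e 3 j = 12 * (F 2 i * F 3 j) := by
  have h2 : ∀ n : ℕ, (1 : ℝ) / 2 ^ (n + 1) - 1 / 2 ^ (n + 2) = 1 / (4 * 2 ^ n) := by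
    intro n
    field_simp
    ring
  have h3 : ∀ n : ℕ, (1 : ℝ) / 3 ^ (n + 1) - 1 / 3 ^ (n + 2) = 2 / (9 * 3 ^ n) := by
    intro n
    field_simp
    ring
  unfold E
  simp only [Finset.sum_product]
  rw [Finset.sum_pair (by norm_num), Finset.sum_insert (by norm_num), Finset.sum_pair (by norm_num),
    Finset.sum_insert (by norm_num), Finset.sum_pair (by norm_num)]
  simp only [Finset.sum_pair (show (0 : ℤ) ≠ 1 by norm_num)]
  by_cases hi : i = 0 <;> by_cases hj : j = 0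
  · subst hi hj
    simp [f, F, b2]
    norm_num
  · subst hi
    simp [f, F, b2, hj]
    norm_num
    ring
  · subst hj
    simp [f, F, b2, hi]
    norm_num
    ring
  · simp [f, F, b2, hi, hj]
    norm_num
    ring

end Pool.Agent.H828_SQ
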