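import Pool.Agent.H828_SQ.Loc2

/-!
The Euler products of the limit law.
-/

set_option autoImplicit false

namespace Pool.Agent.H828_SQ

open Filter Topology

noncomputable def gp (p j : ℕ) : ℝ := ((p : ℝ) - 1) / ((p : ℝ) ^ j * ((p : ℝ) ^ 2 + p - 1))

noncomputable def g (m : ℕ) : ℝ :=
  if m = 0 then 0 else ∏ p ∈ m.primeFactors, gp p (m.factorization p)

theorem gp_nonneg {p : ℕ} (hp : 1 ≤ p) (j : ℕ) : 0 ≤ gp p j := by
  have h : (1 : ℝ) ≤ p := by exact_mod_cast hp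
  unfold gp
  refine div_nonneg (by linarith) (mul_nonneg (by positivity) ?_)
  nlinarith

theorem g_nonneg (m : ℕ) : 0 ≤ g m := by
  unfold g
  split_ifs
  · exact le_rfl
  · exact Finset.prod_nonneg fun p hp => gp_nonneg (Nat.prime_of_mem_primeFactors hp).one_le _

theorem g_zero : g 0 = 0 := by simp [g]

theorem g_one : g 1 = 1 := by simp [g]

theorem g_mul {m n : ℕ} (h : m.Coprime n) : g (m * n) = g m * g n := by
  rcases Nat.eq_zero_or_pos m with rfl | hm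
  · rw [zero_mul, g_zero, zero_mul]
  rcases Nat.eq_zero_or_pos n with rfl | hn
  · rw [mul_zero, g_zero, mul_zero]
  unfold g
  rw [if_neg (by positivity), if_neg hm.ne', if_neg hn.ne', h.primeFactors_mul,
    Finset.prod_union h.disjoint_primeFactors]
  congr 1
  · refine Finset.prod_congr rfl fun p hp => ?_
    have h1 : n.factorization p = 0 := by
      refine Nat.factorization_eq_zero_of_not_dvd fun h2 => ?_
      have h3 := Nat.dvd_gcd (Nat.dvd_of_mem_primeFactors hp) h2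
      rw [h] at h3
      exact (Nat.prime_of_mem_primeFactors hp).one_lt.ne' (Nat.dvd_one.1 h3)
    rw [Nat.factorization_mul hm.ne' hn.ne', Finsupp.add_apply, h1, add_zero]
  · refine Finset.prod_congr rfl fun p hp => ?_
    have h1 : m.factorization p = 0 := by
      refine Nat.factorization_eq_zero_of_not_dvd fun h2 => ?_
      have h3 := Nat.dvd_gcd h2 (Nat.dvd_of_mem_primeFactors hp)
      rw [h] at h3
      exact (Nat.prime_of_mem_primeFactors hp).one_lt.ne' (Nat.dvd_one.1 h3)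
    rw [Nat.factorization_mul hm.ne' hn.ne', Finsupp.add_apply, h1, zero_add]

theorem g_pow {p : ℕ} (hp : p.Prime) (j : ℕ) : g (p ^ (j + 1)) = gp p (j + 1) := by
  unfold g
  rw [if_neg (pow_ne_zero _ hp.ne_zero), Nat.primeFactors_prime_pow (by omega) hp,
    Finset.prod_singleton, hp.factorization_pow, Finsupp.single_eq_same]

noncomputable def fs (σ : ℝ) (m : ℕ) : ℝ := g m * (m : ℝ) ^ σ

theorem fs_nonneg (σ : ℝ) (m : ℕ) : 0 ≤ fs σ m :=
  mul_nonneg (g_nonneg m) (Real.rpow_nonneg (Nat.cast_nonneg _) _)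

theorem fs_one (σ : ℝ) : fs σ 1 = 1 := by simp [fs, g_one]

theorem fs_mul (σ : ℝ) {m n : ℕ} (h : m.Coprime n) : fs σ (m * n) = fs σ m * fs σ n := by
  unfold fs
  rw [g_mul h, Nat.cast_mul, Real.mul_rpow (Nat.cast_nonneg _) (Nat.cast_nonneg _)]
  ring

theorem local_sum {σ : ℝ} (hσ : σ < 1) {p : ℕ} (hp : p.Prime) :
    HasSum (fun j => fs σ (p ^ j)) (((p : ℝ) - 1) / ((p : ℝ) ^ 2 + p - 1) *
      ((p : ℝ) ^ (σ - 1) * (1 - (p : ℝ) ^ (σ - 1))⁻¹) + 1) := by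
  have hp1 : (1 : ℝ) < p := by exact_mod_cast hp.one_lt
  have hp0 : (0 : ℝ) < p := by linarith
  have hr0 : 0 ≤ (p : ℝ) ^ (σ - 1) := Real.rpow_nonneg hp0.le _
  have hr1 : (p : ℝ) ^ (σ - 1) < 1 := Real.rpow_lt_one_of_one_lt_of_neg hp1 (by linarith)
  have h1 := (hasSum_geometric_of_lt_one hr0 hr1).mul_left
    (((p : ℝ) - 1) / ((p : ℝ) ^ 2 + p - 1) * (p : ℝ) ^ (σ - 1))
  have h2 : HasSum (fun j => fs σ (p ^ (j + 1))) (((p : ℝ) - 1) / ((p : ℝ) ^ 2 + p - 1) *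
      ((p : ℝ) ^ (σ - 1) * (1 - (p : ℝ) ^ (σ - 1))⁻¹)) := by
    rw [← mul_assoc]
    refine h1.congr_fun ?_ |> fun h => h
    intro j
    unfold fs
    rw [g_pow hp]
    unfold gp
    have e1 : ((p ^ (j + 1) : ℕ) : ℝ) ^ σ = (p : ℝ) ^ (j + 1) * ((p : ℝ) ^ (σ - 1)) ^ (j + 1) := by
      push_cast
      rw [← Real.rpow_natCast, ← Real.rpow_mul hp0.le, ← Real.rpow_natCast, ← Real.rpow_mul hp0.le,
        ← Real.rpow_add hp0]
      congr 1
      ring
    rw [e1]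
    have h3 : (p : ℝ) ^ 2 + p - 1 ≠ 0 := by nlinarith
    field_simp
    ring
  have h3 := (hasSum_nat_add_iff (f := fun j => fs σ (p ^ j)) 1).1 h2
  rw [Finset.sum_range_one, pow_zero, fs_one] at h3
  exact h3

theorem local_bound {σ : ℝ} (hσ : σ < 1) {p : ℕ} (hp : p.Prime) :
    ((p : ℝ) - 1) / ((p : ℝ) ^ 2 + p - 1) *
      ((p : ℝ) ^ (σ - 1) * (1 - (p : ℝ) ^ (σ - 1))⁻¹) + 1 ≤
    Real.exp ((1 - (2 : ℝ) ^ (σ - 1))⁻¹ * (p : ℝ) ^ (σ - 2)) := by
  have hp2 : (2 : ℝ) ≤ p := by exact_mod_cast hp.two_le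
  have hp0 : (0 : ℝ) < p := by linarith
  have hr0 : 0 ≤ (p : ℝ) ^ (σ - 1) := Real.rpow_nonneg hp0.le _
  have h21 : (2 : ℝ) ^ (σ - 1) < 1 := Real.rpow_lt_one_of_one_lt_of_neg (by norm_num) (by linarith)
  have hr2 : (p : ℝ) ^ (σ - 1) ≤ (2 : ℝ) ^ (σ - 1) :=
    Real.rpow_le_rpow_of_nonpos (by norm_num) hp2 (by linarith)
  have h1 : ((p : ℝ) - 1) / ((p : ℝ) ^ 2 + p - 1) ≤ 1 / p := by
    rw [div_le_div_iff₀ (by nlinarith) hp0]
    nlinarith
  have h2 : (1 - (p : ℝ) ^ (σ - 1))⁻¹ ≤ (1 - (2 : ℝ) ^ (σ - 1))⁻¹ :=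
    inv_anti₀ (by linarith) (by linarith)
  have h3 : 0 ≤ (1 - (p : ℝ) ^ (σ - 1))⁻¹ := inv_nonneg.2 (by linarith)
  have e1 : (p : ℝ) ^ (σ - 2) = 1 / p * (p : ℝ) ^ (σ - 1) := by
    have : (p : ℝ) ^ (σ - 1) = (p : ℝ) ^ (σ - 2) * p := by
      rw [← Real.rpow_add_one hp0.ne']
      congr 1
      ring
    rw [this]
    field_simp
  have h4 : ((p : ℝ) - 1) / ((p : ℝ) ^ 2 + p - 1) *
      ((p : ℝ) ^ (σ - 1) * (1 - (p : ℝ) ^ (σ - 1))⁻¹) ≤
      (1 - (2 : ℝ) ^ (σ - 1))⁻¹ * (p : ℝ) ^ (σ - 2) := by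
    calc _ ≤ 1 / p * ((p : ℝ) ^ (σ - 1) * (1 - (2 : ℝ) ^ (σ - 1))⁻¹) :=
          mul_le_mul h1 (mul_le_mul_of_nonneg_left h2 hr0) (by positivity) (by positivity)
      _ = _ := by
          rw [e1]
          ring
  have h5 := Real.add_one_le_exp ((1 - (2 : ℝ) ^ (σ - 1))⁻¹ * (p : ℝ) ^ (σ - 2))
  linarith

theorem fs_summable {σ : ℝ} (hσ : σ < 1) : Summable (fs σ) := by
  have hz : Summable fun n : ℕ => (n : ℝ) ^ (σ - 2) := Real.summable_nat_rpow.2 (by linarith)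
  have hc : 0 ≤ (1 - (2 : ℝ) ^ (σ - 1))⁻¹ := by
    have h21 : (2 : ℝ) ^ (σ - 1) < 1 :=
      Real.rpow_lt_one_of_one_lt_of_neg (by norm_num) (by linarith)
    exact inv_nonneg.2 (by linarith)
  refine summable_of_sum_range_le (c := Real.exp ((1 - (2 : ℝ) ^ (σ - 1))⁻¹ *
    ∑' n : ℕ, (n : ℝ) ^ (σ - 2))) (fs_nonneg σ) fun N => ?_
  have h1 := (EulerProduct.summable_and_hasSum_smoothNumbers_prod_primesBelow_tsum (f := fs σ)
    (fs_one σ) (fun h => fs_mul σ h) (fun hp => (local_sum hσ hp).summable.norm) N).2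
  have h2 : HasSum ((N.smoothNumbers).indicator (fs σ))
      (∏ p ∈ N.primesBelow, ∑' n : ℕ, fs σ (p ^ n)) := by
    rw [← hasSum_subtype_iff_indicator]
    exact h1
  have h3 : ∑ m ∈ Finset.range N, fs σ m ≤ ∑ m ∈ Finset.range N,
      (N.smoothNumbers).indicator (fs σ) m := by
    refine Finset.sum_le_sum fun m hm => ?_
    rcases Nat.eq_zero_or_pos m with rfl | hm0
    · have : fs σ 0 = 0 := by simp [fs, g_zero]
      rw [this]
      exact Set.indicator_nonneg (fun n _ => fs_nonneg σ n) 0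
    · rw [Set.indicator_of_mem (Nat.mem_smoothNumbers_of_lt hm0 (Finset.mem_range.1 hm))]
  refine h3.trans ((sum_le_hasSum (Finset.range N) (fun m _ => Set.indicator_nonneg
    (fun n _ => fs_nonneg σ n) m) h2).trans ?_)
  calc ∏ p ∈ N.primesBelow, ∑' n : ℕ, fs σ (p ^ n)
      ≤ ∏ p ∈ N.primesBelow, Real.exp ((1 - (2 : ℝ) ^ (σ - 1))⁻¹ * (p : ℝ) ^ (σ - 2)) := by
        refine Finset.prod_le_prod (fun p _ => tsum_nonneg fun n => fs_nonneg σ _) fun p hp => ?_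
        have hpp := Nat.prime_of_mem_primesBelow hp
        rw [(local_sum hσ hpp).tsum_eq]
        exact local_bound hσ hpp
    _ = Real.exp ((1 - (2 : ℝ) ^ (σ - 1))⁻¹ * ∑ p ∈ N.primesBelow, (p : ℝ) ^ (σ - 2)) := by
        rw [← Real.exp_sum, Finset.mul_sum]
    _ ≤ _ := by
        refine Real.exp_le_exp.2 (mul_le_mul_of_nonneg_left ?_ hc)
        exact hz.sum_le_tsum _ fun n _ => Real.rpow_nonneg (Nat.cast_nonneg _) _

theorem fs_zero_eq : fs 0 = g := by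
  funext m
  simp [fs]

theorem g_summable : Summable g := by
  rw [← fs_zero_eq]
  exact fs_summable (by norm_num)

theorem g_tsum_pos : 0 < ∑' m, g m := by
  refine g_summable.tsum_pos g_nonneg 1 ?_
  rw [g_one]
  norm_num

noncomputable def C0 : ℝ := (∑' m, g m)⁻¹

theorem C0_pos : 0 < C0 := inv_pos.2 g_tsum_pos

theorem C0_lim : Tendsto (fun n : ℕ => ∏ p ∈ n.primesBelow, (1 - 1 / ((p : ℝ) * (p + 1)))) atTop
    (𝓝 C0) := by
  have h1 := EulerProduct.eulerProduct (f := g) g_one (fun h => g_mul h)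
    (by simpa [abs_of_nonneg (g_nonneg _)] using g_summable) g_zero
  refine (h1.inv₀ g_tsum_pos.ne').congr fun n => ?_
  rw [← Finset.prod_inv_distrib]
  refine Finset.prod_congr rfl fun p hp => ?_
  have hpp := Nat.prime_of_mem_primesBelow hp
  have h2 := (local_sum (σ := 0) (by norm_num) hpp).tsum_eq
  rw [fs_zero_eq] at h2
  rw [h2]
  have hp1 : (1 : ℝ) < p := by exact_mod_cast hpp.one_lt
  have hp0 : (0 : ℝ) < p := by linarith
  have e1 : (p : ℝ) ^ ((0 : ℝ) - 1) = (p : ℝ)⁻¹ := by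
    rw [zero_sub, Real.rpow_neg_one]
  rw [e1]
  have h3 : (p : ℝ) ^ 2 + p - 1 ≠ 0 := by nlinarith
  have h4 : (p : ℝ) - 1 ≠ 0 := by linarith
  have h5 : (1 : ℝ) - (p : ℝ)⁻¹ ≠ 0 := by
    have : (p : ℝ)⁻¹ < 1 := inv_lt_one_of_one_lt₀ hp1
    linarith
  have e2 : (p : ℝ)⁻¹ * (1 - (p : ℝ)⁻¹)⁻¹ = 1 / (p - 1) := by
    rw [← mul_inv, mul_sub, mul_inv_cancel₀ hp0.ne', mul_one, one_div]
  rw [e2]
  have e3 : ((p : ℝ) - 1) / ((p : ℝ) ^ 2 + p - 1) * (1 / (p - 1)) + 1 =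
      ((p : ℝ) * (p + 1)) / ((p : ℝ) ^ 2 + p - 1) := by
    obtain ⟨q, hq⟩ : ∃ q : ℝ, q = (p : ℝ) ^ 2 + p - 1 := ⟨_, rfl⟩
    rw [← hq] at h3 ⊢
    have h6 : (p : ℝ) * (p + 1) = 1 + q := by rw [hq]; ring
    rw [h6]
    field_simp
  rw [e3, inv_div]
  field_simp

theorem zeta_lim : Tendsto (fun n : ℕ => ∏ p ∈ n.primesBelow, (1 - 1 / (p : ℝ) ^ 2)) atTop
    (𝓝 (6 / Real.pi ^ 2)) := by
  let φ : ℕ →*₀ ℝ :=
    { toFun := fun n => 1 / (n : ℝ) ^ 2
      map_zero' := by simp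
      map_one' := by simp
      map_mul' := fun m n => by
        push_cast
        rw [mul_pow, one_div, one_div, one_div, mul_inv] }
  have hs : Summable fun n : ℕ => ‖φ n‖ := by
    have : Summable fun n : ℕ => 1 / (n : ℝ) ^ 2 := hasSum_zeta_two.summable
    refine this.congr fun n => ?_
    change _ = ‖1 / (n : ℝ) ^ 2‖
    rw [Real.norm_eq_abs, abs_of_nonneg (by positivity)]
  have h1 := EulerProduct.eulerProduct_completely_multiplicative (f := φ) hs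
  have h2 : ∑' n, φ n = Real.pi ^ 2 / 6 := hasSum_zeta_two.tsum_eq
  rw [h2] at h1
  have h3 := h1.inv₀ (by positivity)
  rw [inv_div] at h3
  refine h3.congr fun n => ?_
  rw [← Finset.prod_inv_distrib]
  refine Finset.prod_congr rfl fun p _ => ?_
  rw [inv_inv]
  rfl

theorem F_lim {m : ℕ} (hm : m ≠ 0) :
    Tendsto (fun n : ℕ => ∏ p ∈ n.primesBelow, F p (m.factorization p)) atTop
      (𝓝 (6 / Real.pi ^ 2 * (C0 * g m))) := by
  have h1 := (zeta_lim.mul (C0_lim.mul_const (g m)))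
  refine h1.congr' ?_
  filter_upwards [eventually_gt_atTop m] with n hn
  have e1 : ∀ p ∈ n.primesBelow, F p (m.factorization p) = ((1 - 1 / (p : ℝ) ^ 2) *
      (1 - 1 / ((p : ℝ) * (p + 1)))) *
      (if p ∈ m.primeFactors then gp p (m.factorization p) else 1) := by
    intro p hp
    have hpp := Nat.prime_of_mem_primesBelow hp
    have hp1 : (1 : ℝ) < p := by exact_mod_cast hpp.one_lt
    have hp0 : (0 : ℝ) < p := by linarith
    have h3 : (p : ℝ) ^ 2 + p - 1 ≠ 0 := by nlinarith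
    obtain ⟨q, hq⟩ : ∃ q : ℝ, q = (p : ℝ) ^ 2 + p - 1 := ⟨_, rfl⟩
    have e0 : (1 - 1 / (p : ℝ) ^ 2) * (1 - 1 / ((p : ℝ) * (p + 1))) =
        ((p : ℝ) - 1) * q / (p : ℝ) ^ 3 := by
      rw [hq]
      field_simp
      ring
    rw [e0]
    by_cases h2 : p ∈ m.primeFactors
    · have h4 : m.factorization p ≠ 0 := by
        have h5 := h2
        rw [← Nat.support_factorization, Finsupp.mem_support_iff] at h5
        exact h5
      unfold F gp
      rw [if_pos h2, if_neg h4, ← hq]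
      rw [← hq] at h3
      field_simp
      ring
    · have h4 : m.factorization p = 0 := by
        have h5 := h2
        rw [← Nat.support_factorization, Finsupp.notMem_support_iff] at h5
        exact h5
      unfold F
      rw [if_neg h2, if_pos h4, ← hq, mul_one]
  rw [Finset.prod_congr rfl e1, Finset.prod_mul_distrib, Finset.prod_mul_distrib,
    Finset.prod_ite_mem]
  have e2 : n.primesBelow ∩ m.primeFactors = m.primeFactors := by
    refine Finset.inter_eq_right.2 fun p hp => ?_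
    rw [Nat.mem_primesBelow]
    exact ⟨(Nat.le_of_mem_primeFactors hp).trans_lt hn, Nat.prime_of_mem_primeFactors hp⟩
  rw [e2]
  unfold g
  rw [if_neg hm]
  ring

/-- the limit law -/
noncomputable def law (m : ℕ) : ℝ := C0 * g m

theorem law_hasSum : HasSum law 1 := by
  have h := g_summable.hasSum.mul_left C0
  have e : C0 * ∑' m, g m = 1 := inv_mul_cancel₀ g_tsum_pos.ne'
  rw [e] at h
  exact h

theorem law_nonneg (m : ℕ) : 0 ≤ law m := mul_nonneg C0_pos.le (g_nonneg m)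

/-- the tail of the limit law -/
noncomputable def tail (K : ℕ) : ℝ := 1 - ∑ m ∈ Finset.Icc 1 K, law m

theorem tail_eq (K : ℕ) : tail K = ∑' m : ℕ, law (m + (K + 1)) := by
  have h1 := law_hasSum.summable.sum_add_tsum_nat_add (K + 1)
  rw [law_hasSum.tsum_eq] at h1
  have h2 : ∑ m ∈ Finset.range (K + 1), law m = ∑ m ∈ Finset.Icc 1 K, law m := by
    rw [Finset.range_eq_Ico, Finset.sum_eq_sum_Ico_succ_bot (by omega)]
    have : law 0 = 0 := by simp [law, g_zero]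
    rw [this, zero_add]
    rfl
  unfold tail
  linarith

theorem tail_upper {σ : ℝ} (hσ0 : 0 < σ) (hσ : σ < 1) :
    ∃ C : ℝ, 0 < C ∧ ∀ K : ℕ, 1 ≤ K → tail K ≤ C * (K : ℝ) ^ (-σ) := by
  have hs : Summable fun m => C0 * fs σ m := (fs_summable hσ).mul_left C0
  have hpos : ∀ m, 0 ≤ C0 * fs σ m := fun m => mul_nonneg C0_pos.le (fs_nonneg σ m)
  have hT : 0 < ∑' m, C0 * fs σ m := by
    refine hs.tsum_pos hpos 1 ?_
    rw [fs_one, mul_one]
    exact C0_pos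
  refine ⟨_, hT, fun K hK => ?_⟩
  have hK' : (1 : ℝ) ≤ K := by exact_mod_cast hK
  rw [tail_eq]
  have hs2 : Summable fun m => C0 * fs σ (m + (K + 1)) := (summable_nat_add_iff (K + 1)).2 hs
  have h1 : ∀ m : ℕ, law (m + (K + 1)) ≤ (K : ℝ) ^ (-σ) * (C0 * fs σ (m + (K + 1))) := by
    intro m
    unfold law fs
    have h2 : 1 ≤ (K : ℝ) ^ (-σ) * ((m + (K + 1) : ℕ) : ℝ) ^ σ := by
      rw [Real.rpow_neg (by linarith), inv_mul_eq_div, one_le_div (Real.rpow_pos_of_pos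
        (by linarith) _)]
      refine Real.rpow_le_rpow (by linarith) ?_ hσ0.le
      push_cast
      have : (0 : ℝ) ≤ m := Nat.cast_nonneg _
      linarith
    have h3 : 0 ≤ C0 * g (m + (K + 1)) := mul_nonneg C0_pos.le (g_nonneg _)
    calc C0 * g (m + (K + 1)) = C0 * g (m + (K + 1)) * 1 := by ring
      _ ≤ C0 * g (m + (K + 1)) * ((K : ℝ) ^ (-σ) * ((m + (K + 1) : ℕ) : ℝ) ^ σ) :=
          mul_le_mul_of_nonneg_left h2 h3
      _ = _ := by ring
  have h4 : Summable fun m : ℕ => law (m + (K + 1)) :=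
    (summable_nat_add_iff (K + 1)).2 law_hasSum.summable
  have h5 := h4.tsum_le_tsum h1 (hs2.mul_left _)
  rw [tsum_mul_left] at h5
  have h6 : ∑' m, C0 * fs σ (m + (K + 1)) ≤ ∑' m, C0 * fs σ m := by
    have h7 := hs.sum_add_tsum_nat_add (K + 1)
    have h8 : 0 ≤ ∑ m ∈ Finset.range (K + 1), C0 * fs σ m := Finset.sum_nonneg fun m _ => hpos m
    linarith
  have h9 : 0 ≤ (K : ℝ) ^ (-σ) := Real.rpow_nonneg (by linarith) _
  calc _ ≤ _ := h5
    _ ≤ (K : ℝ) ^ (-σ) * ∑' m, C0 * fs σ m := mul_le_mul_of_nonneg_left h6 h9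
    _ = _ := by ring

theorem tail_lower : ∃ c : ℝ, 0 < c ∧ ∀ K : ℕ, 1 ≤ K → c / K ≤ tail K := by
  refine ⟨C0 / 10, by have := C0_pos; positivity, fun K hK => ?_⟩
  have hK' : (1 : ℝ) ≤ K := by exact_mod_cast hK
  have h1 : 2 ^ (Nat.log 2 K) ≤ K := Nat.pow_log_le_self 2 (by omega)
  have h2 : K < 2 ^ (Nat.log 2 K + 1) := Nat.lt_pow_succ_log_self (by norm_num) K
  set j := Nat.log 2 K with hj
  have h4 : Summable fun m : ℕ => law (m + (K + 1)) :=
    (summable_nat_add_iff (K + 1)).2 law_hasSum.summable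
  have h5 : law (2 ^ (j + 1)) ≤ tail K := by
    rw [tail_eq]
    have h6 := h4.le_tsum (2 ^ (j + 1) - (K + 1)) fun m _ => law_nonneg _
    have h7 : 2 ^ (j + 1) - (K + 1) + (K + 1) = 2 ^ (j + 1) := by omega
    rwa [h7] at h6
  refine le_trans ?_ h5
  unfold law
  rw [g_pow Nat.prime_two]
  unfold gp
  have h8 : ((2 : ℝ)) ^ (j + 1) ≤ 2 * K := by
    rw [pow_succ]
    have : (2 : ℝ) ^ j ≤ K := by exact_mod_cast h1
    linarith
  have h9 : (0 : ℝ) < 2 ^ (j + 1) := by positivity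
  have hC := C0_pos
  rw [div_div, div_le_iff₀ (by positivity)]
  have e1 : C0 * ((((2 : ℕ) : ℝ) - 1) / (((2 : ℕ) : ℝ) ^ (j + 1) *
      (((2 : ℕ) : ℝ) ^ 2 + ((2 : ℕ) : ℝ) - 1))) * (10 * K) = C0 * (2 * K / 2 ^ (j + 1)) := by
    push_cast
    field_simp
    norm_num
  rw [e1]
  have h10 : 1 ≤ 2 * (K : ℝ) / 2 ^ (j + 1) := by
    rwa [one_le_div h9]
  nlinarith

end Pool.Agent.H828_SQ
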