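import Mathlib

/-!
Counting integers in intervals and pairs of integers in boxes.
-/

set_option autoImplicit false

namespace Pool.Agent.H828_SQ

open Filter Topology

theorem line_count (k c R : ℝ) (hk : 0 < k) (hR : 0 ≤ R) :
    {t : ℤ | |c - k * t| ≤ R}.Finite ∧ |({t : ℤ | |c - k * t| ≤ R}.ncard : ℝ) - 2 * R / k| ≤ 1 := by
  have hset : {t : ℤ | |c - k * t| ≤ R} = Set.Icc ⌈(c - R) / k⌉ ⌊(c + R) / k⌋ := by
    ext t
    rw [Set.mem_ofPred_eq, Set.mem_Icc, Int.ceil_le, Int.le_floor, div_le_iff₀ hk, le_div_iff₀ hk,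
      abs_le]
    constructor
    · rintro ⟨h1, h2⟩
      constructor <;> linarith
    · rintro ⟨h1, h2⟩
      constructor <;> linarith
  rw [hset]
  refine ⟨Set.finite_Icc _ _, ?_⟩
  have h1 : ((Set.Icc ⌈(c - R) / k⌉ ⌊(c + R) / k⌋).ncard : ℤ) =
      max (⌊(c + R) / k⌋ + 1 - ⌈(c - R) / k⌉) 0 := by
    rw [← Finset.coe_Icc, Set.ncard_coe_finset, Int.card_Icc, Int.toNat_eq_max]
  have h2 : ((Set.Icc ⌈(c - R) / k⌉ ⌊(c + R) / k⌋).ncard : ℝ) =
      max ((⌊(c + R) / k⌋ : ℝ) + 1 - ⌈(c - R) / k⌉) 0 := by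
    have := congrArg (fun n : ℤ => (n : ℝ)) h1
    simp only [Int.cast_natCast] at this
    rw [this]
    push_cast
    rfl
  have h3 := Int.floor_le ((c + R) / k)
  have h4 := Int.lt_floor_add_one ((c + R) / k)
  have h5 := Int.le_ceil ((c - R) / k)
  have h6 := Int.ceil_lt_add_one ((c - R) / k)
  have h7 : (c + R) / k - (c - R) / k = 2 * R / k := by
    field_simp
    ring
  have h8 : 0 ≤ 2 * R / k := by positivity
  rw [h2, abs_le]
  constructor
  · have := le_max_left ((⌊(c + R) / k⌋ : ℝ) + 1 - ⌈(c - R) / k⌉) 0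
    linarith
  · have : max ((⌊(c + R) / k⌋ : ℝ) + 1 - ⌈(c - R) / k⌉) 0 ≤ 2 * R / k + 1 :=
      max_le (by linarith) (by linarith)
    linarith

theorem ncard_fibers {A : Set ℤ} (hA : A.Finite) {S : ℤ → Set ℤ} (hS : ∀ x ∈ A, (S x).Finite) :
    {z : ℤ × ℤ | z.1 ∈ A ∧ z.2 ∈ S z.1}.Finite ∧
    {z : ℤ × ℤ | z.1 ∈ A ∧ z.2 ∈ S z.1}.ncard = ∑ x ∈ hA.toFinset, (S x).ncard := by
  classical
  have hset : {z : ℤ × ℤ | z.1 ∈ A ∧ z.2 ∈ S z.1} =
      ⋃ x ∈ hA.toFinset, (fun y => (x, y)) '' (S x) := by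
    ext ⟨a, b⟩
    simp only [Set.mem_ofPred_eq, Set.mem_iUnion, Set.mem_image, Prod.mk.injEq,
      Set.Finite.mem_toFinset]
    constructor
    · rintro ⟨h1, h2⟩
      exact ⟨a, h1, b, h2, rfl, rfl⟩
    · rintro ⟨x, h1, y, h2, rfl, rfl⟩
      exact ⟨h1, h2⟩
  have hfin : ∀ x ∈ hA.toFinset, ((fun y => (x, y)) '' (S x) : Set (ℤ × ℤ)).Finite := by
    intro x hx
    exact (hS x (by simpa using hx)).image _
  refine ⟨?_, ?_⟩
  · rw [hset]
    exact Set.Finite.biUnion (Finset.finite_toSet _) hfin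
  · rw [hset]
    have key : ∀ T : Finset ℤ, T ⊆ hA.toFinset →
        (⋃ x ∈ T, ((fun y => (x, y)) '' (S x) : Set (ℤ × ℤ))).ncard = ∑ x ∈ T, (S x).ncard := by
      intro T
      induction T using Finset.induction_on with
      | empty => simp
      | insert a T ha ih =>
        intro hT
        have hd : Disjoint ((fun y => (a, y)) '' (S a) : Set (ℤ × ℤ))
            (⋃ x ∈ T, ((fun y => (x, y)) '' (S x) : Set (ℤ × ℤ))) := by
          rw [Set.disjoint_left]
          rintro ⟨p, q⟩ h1 h2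
          simp only [Set.mem_image, Prod.mk.injEq, Set.mem_iUnion] at h1 h2
          obtain ⟨y, _, rfl, _⟩ := h1
          obtain ⟨x, hx, y', _, h3, _⟩ := h2
          exact ha (h3 ▸ hx)
        have hf1 := hfin a (hT (Finset.mem_insert_self _ _))
        have hf2 : (⋃ x ∈ T, ((fun y => (x, y)) '' (S x) : Set (ℤ × ℤ))).Finite := by
          refine Set.Finite.biUnion (Finset.finite_toSet _) fun x hx => hfin x ?_
          exact hT (Finset.mem_insert_of_mem (by simpa using hx))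
        rw [Finset.set_biUnion_insert, Finset.sum_insert ha, Set.ncard_union_eq hd hf1 hf2,
          ih ((Finset.subset_insert _ _).trans hT), Set.ncard_image_of_injective]
        intro y y' h
        simpa using h
    exact key _ (Finset.Subset.refl _)

theorem box_count (k l c R S : ℝ) (d : ℤ → ℝ) (hk : 0 < k) (hl : 0 < l) (hR : 0 ≤ R)
    (hS : 0 ≤ S) :
    {z : ℤ × ℤ | |c - k * z.1| ≤ R ∧ |d z.1 - l * z.2| ≤ S}.Finite ∧
    |({z : ℤ × ℤ | |c - k * z.1| ≤ R ∧ |d z.1 - l * z.2| ≤ S}.ncard : ℝ) -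
      (2 * R / k) * (2 * S / l)| ≤ 2 * R / k + 2 * S / l + 1 := by
  have hA := line_count k c R hk hR
  have hB := fun x : ℤ => line_count l (d x) S hl hS
  obtain ⟨h1, h2⟩ := ncard_fibers (S := fun x => {t : ℤ | |d x - l * t| ≤ S}) hA.1
    (fun x _ => (hB x).1)
  refine ⟨h1, ?_⟩
  simp only [Set.mem_ofPred_eq] at h2
  rw [h2]
  push_cast
  have hcard : (hA.1.toFinset.card : ℝ) = ({t : ℤ | |c - k * t| ≤ R}.ncard : ℝ) := by
    rw [← Set.ncard_coe_finset, Set.Finite.coe_toFinset]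
  have h3 : |∑ x ∈ hA.1.toFinset, (({t : ℤ | |d x - l * t| ≤ S}.ncard : ℝ)) -
      hA.1.toFinset.card * (2 * S / l)| ≤ hA.1.toFinset.card := by
    have : ∑ x ∈ hA.1.toFinset, (({t : ℤ | |d x - l * t| ≤ S}.ncard : ℝ)) -
        hA.1.toFinset.card * (2 * S / l) =
        ∑ x ∈ hA.1.toFinset, ((({t : ℤ | |d x - l * t| ≤ S}.ncard : ℝ)) - 2 * S / l) := by
      rw [Finset.sum_sub_distrib, Finset.sum_const, nsmul_eq_mul]
    rw [this]
    refine (Finset.abs_sum_le_sum_abs _ _).trans ?_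
    refine (Finset.sum_le_sum fun x _ => (hB x).2).trans ?_
    simp
  have h4 := hA.2
  rw [← hcard] at h4
  have h5 : 0 ≤ 2 * S / l := by positivity
  have h6 : |(hA.1.toFinset.card : ℝ) * (2 * S / l) - (2 * R / k) * (2 * S / l)| ≤
      2 * S / l := by
    rw [← sub_mul, abs_mul, abs_of_nonneg h5]
    exact (mul_le_mul_of_nonneg_right h4 h5).trans (by rw [one_mul])
  have h7 : (hA.1.toFinset.card : ℝ) ≤ 2 * R / k + 1 := by
    have := (abs_le.1 h4).2
    linarith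
  have h8 := abs_sub_le (∑ x ∈ hA.1.toFinset, (({t : ℤ | |d x - l * t| ≤ S}.ncard : ℝ)))
    (hA.1.toFinset.card * (2 * S / l)) ((2 * R / k) * (2 * S / l))
  linarith

end Pool.Agent.H828_SQ
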