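import Pool.Agent.H828_SQ.Model
import Pool.Agent.H828_SQ.Count

/-!
Densities of periodic conditions on the coefficients of reduced equations, ordered by height.
-/

set_option autoImplicit false

namespace Pool.Agent.H828_SQ

open Filter Topology

/-- the pairs of coefficients with height at most `X` -/
def Reg (e : ℤ × ℤ × ℤ) (X : ℝ) : Set (ℤ × ℤ) :=
  {z | |(u4 e z.1 : ℝ)| ^ 3 ≤ X ∧ (u6 e z.1 z.2 : ℝ) ^ 2 ≤ X}

def Cut (e : ℤ × ℤ × ℤ) (P : ℤ → ℤ → Prop) (X : ℝ) : Set (ℤ × ℤ) := {z | z ∈ Reg e X ∧ P z.1 z.2}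

def HasDens (e : ℤ × ℤ × ℤ) (P : ℤ → ℤ → Prop) (d : ℝ) : Prop :=
  Tendsto (fun X : ℝ => ((Cut e P X).ncard : ℝ) / X ^ (5 / 6 : ℝ)) atTop (𝓝 (d / 10368))

theorem reg_iff {e : ℤ × ℤ × ℤ} {X : ℝ} (hX : 0 ≤ X) (z : ℤ × ℤ) : z ∈ Reg e X ↔
    |(al e : ℝ) - 48 * z.1| ≤ X ^ (1 / 3 : ℝ) ∧
      |((be e : ℝ) + 72 * b2 e * z.1) - 864 * z.2| ≤ X ^ (1 / 2 : ℝ) := by
  have h1 : (X ^ (1 / 3 : ℝ)) ^ 3 = X := by
    rw [← Real.rpow_natCast, ← Real.rpow_mul hX]
    norm_num
  have h2 : (X ^ (1 / 2 : ℝ)) ^ 2 = X := by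
    rw [← Real.rpow_natCast, ← Real.rpow_mul hX]
    norm_num
  have e1 : (u4 e z.1 : ℝ) = (al e : ℝ) - 48 * z.1 := by
    simp [u4]
  have e2 : (u6 e z.1 z.2 : ℝ) = ((be e : ℝ) + 72 * b2 e * z.1) - 864 * z.2 := by
    simp [u6]
  have h3 : 0 ≤ X ^ (1 / 3 : ℝ) := Real.rpow_nonneg hX _
  have h4 : 0 ≤ X ^ (1 / 2 : ℝ) := Real.rpow_nonneg hX _
  unfold Reg
  rw [Set.mem_ofPred_eq, e1, e2]
  constructor
  · rintro ⟨h5, h6⟩
    constructor
    · rw [← h1] at h5
      exact (pow_le_pow_iff_left₀ (abs_nonneg _) h3 (by norm_num)).1 h5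
    · rw [← h2, ← sq_abs] at h6
      exact (pow_le_pow_iff_left₀ (abs_nonneg _) h4 (by norm_num)).1 h6
  · rintro ⟨h5, h6⟩
    constructor
    · calc _ ≤ (X ^ (1 / 3 : ℝ)) ^ 3 := pow_le_pow_left₀ (abs_nonneg _) h5 3
        _ = X := h1
    · rw [← sq_abs]
      calc _ ≤ (X ^ (1 / 2 : ℝ)) ^ 2 := pow_le_pow_left₀ (abs_nonneg _) h6 2
        _ = X := h2

theorem reg_finite (e : ℤ × ℤ × ℤ) (X : ℝ) : (Reg e X).Finite := by
  rcases le_or_gt 0 X with hX | hX
  · have h := (box_count 48 864 (al e) (X ^ (1 / 3 : ℝ)) (X ^ (1 / 2 : ℝ))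
      (fun x => (be e : ℝ) + 72 * b2 e * x) (by norm_num) (by norm_num)
      (Real.rpow_nonneg hX _) (Real.rpow_nonneg hX _)).1
    exact h.subset fun z hz => (reg_iff hX z).1 hz
  · refine Set.finite_empty.subset ?_
    rintro z ⟨h1, h2⟩
    have := sq_nonneg (u6 e z.1 z.2 : ℝ)
    exact absurd (this.trans h2) (not_le.2 hX)

theorem cut_finite (e : ℤ × ℤ × ℤ) (P : ℤ → ℤ → Prop) (X : ℝ) : (Cut e P X).Finite :=
  (reg_finite e X).subset fun _ hz => hz.1

theorem err_tendsto : Tendsto (fun X : ℝ => (X ^ (1 / 3 : ℝ) + X ^ (1 / 2 : ℝ) + 1) /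
    X ^ (5 / 6 : ℝ)) atTop (𝓝 0) := by
  have h1 := tendsto_rpow_neg_atTop (y := 1 / 2) (by norm_num)
  have h2 := tendsto_rpow_neg_atTop (y := 1 / 3) (by norm_num)
  have h3 := tendsto_rpow_neg_atTop (y := 5 / 6) (by norm_num)
  have h4 := (h1.add h2).add h3
  simp only [add_zero] at h4
  refine h4.congr' ?_
  filter_upwards [eventually_gt_atTop 0] with X hX
  have e1 : X ^ (-(1 / 2) : ℝ) = X ^ (1 / 3 : ℝ) / X ^ (5 / 6 : ℝ) := by
    rw [← Real.rpow_sub hX]
    norm_num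
  have e2 : X ^ (-(1 / 3) : ℝ) = X ^ (1 / 2 : ℝ) / X ^ (5 / 6 : ℝ) := by
    rw [← Real.rpow_sub hX]
    norm_num
  have e3 : X ^ (-(5 / 6) : ℝ) = 1 / X ^ (5 / 6 : ℝ) := by
    rw [Real.rpow_neg hX.le, one_div]
  rw [e1, e2, e3]
  ring

theorem class_dens (e : ℤ × ℤ × ℤ) (M : ℕ) [NeZero M] (r s : ZMod M) :
    HasDens e (fun x y => (x : ZMod M) = r ∧ (y : ZMod M) = s) (1 / (M : ℝ) ^ 2) := by
  obtain ⟨r, rfl⟩ := ZMod.intCast_surjective r
  obtain ⟨s, rfl⟩ := ZMod.intCast_surjective s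
  have hM : (1 : ℝ) ≤ M := by exact_mod_cast NeZero.one_le
  have hM0 : (0 : ℝ) < M := by linarith
  have hMz : (M : ℤ) ≠ 0 := by exact_mod_cast NeZero.ne M
  have key : ∀ X : ℝ, 0 ≤ X →
      |((Cut e (fun x y => (x : ZMod M) = (r : ZMod M) ∧ (y : ZMod M) = (s : ZMod M)) X).ncard : ℝ) -
        (2 * X ^ (1 / 3 : ℝ) / (48 * M)) * (2 * X ^ (1 / 2 : ℝ) / (864 * M))| ≤
        X ^ (1 / 3 : ℝ) + X ^ (1 / 2 : ℝ) + 1 := by
    intro X hX
    have h3 : 0 ≤ X ^ (1 / 3 : ℝ) := Real.rpow_nonneg hX _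
    have h4 : 0 ≤ X ^ (1 / 2 : ℝ) := Real.rpow_nonneg hX _
    obtain ⟨-, hb⟩ := box_count (48 * M) (864 * M) ((al e : ℝ) - 48 * r) (X ^ (1 / 3 : ℝ))
      (X ^ (1 / 2 : ℝ)) (fun t => (be e : ℝ) + 72 * b2 e * (r + M * t) - 864 * s)
      (by positivity) (by positivity) h3 h4
    have hset : Cut e (fun x y => (x : ZMod M) = (r : ZMod M) ∧ (y : ZMod M) = (s : ZMod M)) X =
        (fun w : ℤ × ℤ => (r + M * w.1, s + M * w.2)) ''
        {z : ℤ × ℤ | |((al e : ℝ) - 48 * r) - (48 * M) * z.1| ≤ X ^ (1 / 3 : ℝ) ∧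
          |((be e : ℝ) + 72 * b2 e * (r + M * z.1) - 864 * s) - (864 * M) * z.2| ≤
            X ^ (1 / 2 : ℝ)} := by
      ext ⟨x, y⟩
      simp only [Cut, Set.mem_ofPred_eq, Set.mem_image, Prod.mk.injEq]
      rw [reg_iff hX]
      constructor
      · rintro ⟨⟨h5, h6⟩, h7, h8⟩
        rw [eq_comm, ZMod.intCast_eq_intCast_iff_dvd_sub] at h7 h8
        obtain ⟨t, ht⟩ := h7
        obtain ⟨t', ht'⟩ := h8
        have hx : x = r + M * t := by linarith
        have hy : y = s + M * t' := by linarith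
        refine ⟨(t, t'), ⟨?_, ?_⟩, hx.symm, hy.symm⟩
        · rw [hx] at h5
          push_cast at h5
          convert h5 using 2
          ring
        · rw [hx, hy] at h6
          push_cast at h6
          convert h6 using 2
          ring
      · rintro ⟨⟨t, t'⟩, ⟨h5, h6⟩, h7, h8⟩
        simp only at h5 h6 h7 h8
        subst h7
        subst h8
        refine ⟨⟨?_, ?_⟩, ?_, ?_⟩
        · push_cast
          convert h5 using 2
          ring
        · push_cast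
          convert h6 using 2
          ring
        · push_cast
          simp
        · push_cast
          simp
    rw [hset, Set.ncard_image_of_injective]
    · refine hb.trans ?_
      have h5 : 2 * X ^ (1 / 3 : ℝ) / (48 * M) ≤ X ^ (1 / 3 : ℝ) := by
        rw [div_le_iff₀ (by positivity)]
        nlinarith
      have h6 : 2 * X ^ (1 / 2 : ℝ) / (864 * M) ≤ X ^ (1 / 2 : ℝ) := by
        rw [div_le_iff₀ (by positivity)]
        nlinarith
      linarith
    · rintro ⟨a, b⟩ ⟨a', b'⟩ h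
      simp only [Prod.mk.injEq] at h
      obtain ⟨h5, h6⟩ := h
      have h7 : a = a' := mul_left_cancel₀ hMz (by linarith)
      have h8 : b = b' := mul_left_cancel₀ hMz (by linarith)
      rw [h7, h8]
  unfold HasDens
  rw [tendsto_iff_norm_sub_tendsto_zero]
  refine squeeze_zero' (Eventually.of_forall fun X => norm_nonneg _) ?_ err_tendsto
  filter_upwards [eventually_gt_atTop 0] with X hX
  have hp : 0 < X ^ (5 / 6 : ℝ) := Real.rpow_pos_of_pos hX _
  have hmul : X ^ (1 / 3 : ℝ) * X ^ (1 / 2 : ℝ) = X ^ (5 / 6 : ℝ) := by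
    rw [← Real.rpow_add hX]
    norm_num
  rw [Real.norm_eq_abs]
  have e1 : 1 / (M : ℝ) ^ 2 / 10368 = ((2 * X ^ (1 / 3 : ℝ) / (48 * M)) *
      (2 * X ^ (1 / 2 : ℝ) / (864 * M))) / X ^ (5 / 6 : ℝ) := by
    rw [← hmul]
    have h3 : 0 < X ^ (1 / 3 : ℝ) := Real.rpow_pos_of_pos hX _
    have h4 : 0 < X ^ (1 / 2 : ℝ) := Real.rpow_pos_of_pos hX _
    field_simp
    norm_num
  rw [e1, ← sub_div, abs_div, abs_of_pos hp]
  exact div_le_div_of_nonneg_right (key X hX.le) hp.le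

variable {e : ℤ × ℤ × ℤ} {P Q : ℤ → ℤ → Prop} {d d' : ℝ}

theorem HasDens.congr (h : HasDens e P d) (hPQ : ∀ x y, P x y ↔ Q x y) : HasDens e Q d := by
  have : Cut e P = Cut e Q := by
    funext X
    ext z
    simp only [Cut, Set.mem_ofPred_eq, hPQ]
  unfold HasDens
  rw [← this]
  exact h

theorem HasDens.add (hP : HasDens e P d) (hQ : HasDens e Q d') (hPQ : ∀ x y, P x y → ¬ Q x y) :
    HasDens e (fun x y => P x y ∨ Q x y) (d + d') := by
  unfold HasDens at *
  rw [add_div]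
  refine (hP.add hQ).congr fun X => ?_
  have : Cut e (fun x y => P x y ∨ Q x y) X = Cut e P X ∪ Cut e Q X := by
    ext z
    simp only [Cut, Set.mem_ofPred_eq, Set.mem_union]
    tauto
  rw [this, Set.ncard_union_eq _ (cut_finite _ _ _) (cut_finite _ _ _)]
  · push_cast
    ring
  · rw [Set.disjoint_left]
    rintro z h1 h2
    exact hPQ _ _ h1.2 h2.2

theorem hasDens_false : HasDens e (fun _ _ => False) 0 := by
  unfold HasDens
  have : ∀ X, Cut e (fun _ _ => False) X = ∅ := by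
    intro X
    ext z
    simp [Cut]
  simp [this]

theorem hasDens_true : HasDens e (fun _ _ => True) 1 := by
  have := class_dens e 1 0 0
  norm_num at this
  refine this.congr fun x y => ?_
  simp [Subsingleton.elim (x : ZMod 1) 0, Subsingleton.elim (y : ZMod 1) 0]

theorem HasDens.unique (h : HasDens e P d) (h' : HasDens e P d') : d = d' := by
  have := tendsto_nhds_unique h h'
  linarith

theorem HasDens.diff (hP : HasDens e P d) (hQ : HasDens e Q d') (hPQ : ∀ x y, Q x y → P x y) :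
    HasDens e (fun x y => P x y ∧ ¬ Q x y) (d - d') := by
  unfold HasDens at *
  rw [sub_div]
  refine (hP.sub hQ).congr fun X => ?_
  have h1 : Cut e P X = Cut e Q X ∪ Cut e (fun x y => P x y ∧ ¬ Q x y) X := by
    ext z
    simp only [Cut, Set.mem_ofPred_eq, Set.mem_union]
    have := hPQ z.1 z.2
    tauto
  rw [h1, Set.ncard_union_eq _ (cut_finite _ _ _) (cut_finite _ _ _)]
  · push_cast
    ring
  · rw [Set.disjoint_left]
    rintro z h1 h2
    exact h2.2.2 h1.2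

theorem HasDens.not (h : HasDens e P d) : HasDens e (fun x y => ¬ P x y) (1 - d) :=
  (hasDens_true.diff h fun _ _ _ => trivial).congr fun _ _ => by simp

/-- a condition which depends only on the classes modulo `M` -/
def Per (M : ℕ) (P : ℤ → ℤ → Prop) (T : Finset (ZMod M × ZMod M)) : Prop :=
  ∀ x y : ℤ, P x y ↔ ((x : ZMod M), (y : ZMod M)) ∈ T

theorem per_dens (e : ℤ × ℤ × ℤ) {M : ℕ} [NeZero M] {P : ℤ → ℤ → Prop}
    {T : Finset (ZMod M × ZMod M)} (h : Per M P T) : HasDens e P (T.card / (M : ℝ) ^ 2) := by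
  classical
  have key : ∀ T : Finset (ZMod M × ZMod M),
      HasDens e (fun x y => ((x : ZMod M), (y : ZMod M)) ∈ T) (T.card / (M : ℝ) ^ 2) := by
    intro T
    induction T using Finset.induction_on with
    | empty =>
      have := hasDens_false (e := e)
      simpa using this
    | insert a T ha ih =>
      have h1 := (class_dens e M a.1 a.2).add ih (by
        rintro x y ⟨h1, h2⟩ h3
        rw [h1, h2] at h3
        exact ha h3)
      rw [Finset.card_insert_of_notMem ha]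
      have e1 : 1 / (M : ℝ) ^ 2 + T.card / (M : ℝ) ^ 2 = ((T.card + 1 : ℕ) : ℝ) / (M : ℝ) ^ 2 := by
        push_cast
        ring
      rw [e1] at h1
      refine h1.congr fun x y => ?_
      rw [Finset.mem_insert, Prod.ext_iff]
  exact (key T).congr fun x y => (h x y).symm

theorem per_and {M N : ℕ} [NeZero M] [NeZero N] (hc : M.Coprime N)
    {T : Finset (ZMod M × ZMod M)} {T' : Finset (ZMod N × ZMod N)} (hP : Per M P T)
    (hQ : Per N Q T') : ∃ T'' : Finset (ZMod (M * N) × ZMod (M * N)),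
      Per (M * N) (fun x y => P x y ∧ Q x y) T'' ∧ T''.card = T.card * T'.card := by
  classical
  have : NeZero (M * N) := ⟨mul_ne_zero (NeZero.ne M) (NeZero.ne N)⟩
  let cr := ZMod.chineseRemainder hc
  let φ : (ZMod (M * N) × ZMod (M * N)) ≃ (ZMod M × ZMod M) × (ZMod N × ZMod N) :=
    (Equiv.prodCongr cr.toEquiv cr.toEquiv).trans (Equiv.prodProdProdComm _ _ _ _)
  refine ⟨(T ×ˢ T').map φ.symm.toEmbedding, ?_, ?_⟩
  · intro x y
    change (P x y ∧ Q x y) ↔ _
    rw [hP x y, hQ x y, Finset.mem_map_equiv, Equiv.symm_symm, Finset.mem_product]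
    have h1 : φ ((x : ZMod (M * N)), (y : ZMod (M * N))) =
        (((x : ZMod M), (y : ZMod M)), ((x : ZMod N), (y : ZMod N))) := by
      have h2 : cr (x : ZMod (M * N)) = ((x : ZMod M), (x : ZMod N)) := by
        rw [map_intCast]
        rfl
      have h3 : cr (y : ZMod (M * N)) = ((y : ZMod M), (y : ZMod N)) := by
        rw [map_intCast]
        rfl
      change Equiv.prodProdProdComm _ _ _ _ (cr (x : ZMod (M * N)), cr (y : ZMod (M * N))) = _
      rw [h2, h3]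
      rfl
    rw [h1]
  · rw [Finset.card_map, Finset.card_product]

theorem and_dens {M N : ℕ} [NeZero M] [NeZero N] (hc : M.Coprime N)
    {T : Finset (ZMod M × ZMod M)} {T' : Finset (ZMod N × ZMod N)} (hP : Per M P T)
    (hQ : Per N Q T') (hd : HasDens e P d) (hd' : HasDens e Q d') :
    (∃ T'' : Finset (ZMod (M * N) × ZMod (M * N)), Per (M * N) (fun x y => P x y ∧ Q x y) T'') ∧
      HasDens e (fun x y => P x y ∧ Q x y) (d * d') := by
  have : NeZero (M * N) := ⟨mul_ne_zero (NeZero.ne M) (NeZero.ne N)⟩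
  obtain ⟨T'', h1, h2⟩ := per_and hc hP hQ
  have h3 := per_dens e h1
  have h4 := hd.unique (per_dens e hP)
  have h5 := hd'.unique (per_dens e hQ)
  refine ⟨⟨T'', h1⟩, ?_⟩
  have hM : (M : ℝ) ≠ 0 := by exact_mod_cast NeZero.ne M
  have hN : (N : ℝ) ≠ 0 := by exact_mod_cast NeZero.ne N
  have e1 : d * d' = T''.card / ((M * N : ℕ) : ℝ) ^ 2 := by
    rw [h4, h5, h2]
    push_cast
    field_simp
  rw [e1]
  exact h3

theorem forall_dens (e : ℤ × ℤ × ℤ) (S : Finset ℕ) (P : ℕ → ℤ → ℤ → Prop) (k : ℕ → ℕ)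
    (d : ℕ → ℝ) (hS : ∀ p ∈ S, p.Prime)
    (hper : ∀ p ∈ S, ∃ T : Finset (ZMod (p ^ k p) × ZMod (p ^ k p)), Per (p ^ k p) (P p) T)
    (hd : ∀ p ∈ S, HasDens e (P p) (d p)) :
    (∃ T : Finset (ZMod (∏ p ∈ S, p ^ k p) × ZMod (∏ p ∈ S, p ^ k p)),
      Per (∏ p ∈ S, p ^ k p) (fun x y => ∀ p ∈ S, P p x y) T) ∧
    HasDens e (fun x y => ∀ p ∈ S, P p x y) (∏ p ∈ S, d p) := by
  classical
  induction S using Finset.induction_on with
  | empty =>
    refine ⟨?_, ?_⟩
    · refine ⟨{(0, 0)}, fun x y => ?_⟩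
      simp only [Finset.notMem_empty, IsEmpty.forall_iff, implies_true, true_iff,
        Finset.mem_singleton]
      have : Subsingleton (ZMod (∏ p ∈ (∅ : Finset ℕ), p ^ k p)) := by
        rw [Finset.prod_empty]
        infer_instance
      exact Subsingleton.elim _ _
    · have := hasDens_true (e := e)
      simpa using this
  | insert a S ha ih =>
    obtain ⟨⟨T, hT⟩, h2⟩ := ih (fun p hp => hS p (Finset.mem_insert_of_mem hp))
      (fun p hp => hper p (Finset.mem_insert_of_mem hp))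
      (fun p hp => hd p (Finset.mem_insert_of_mem hp))
    obtain ⟨T', hT'⟩ := hper a (Finset.mem_insert_self _ _)
    have h3 := hd a (Finset.mem_insert_self _ _)
    have hap := hS a (Finset.mem_insert_self _ _)
    have : NeZero (a ^ k a) := ⟨pow_ne_zero _ hap.ne_zero⟩
    have : NeZero (∏ p ∈ S, p ^ k p) := ⟨Finset.prod_ne_zero_iff.2 fun p hp =>
      pow_ne_zero _ (hS p (Finset.mem_insert_of_mem hp)).ne_zero⟩
    have hc : (a ^ k a).Coprime (∏ p ∈ S, p ^ k p) := by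
      refine Nat.Coprime.prod_right fun p hp => ?_
      refine Nat.Coprime.pow _ _ ((Nat.coprime_primes hap
        (hS p (Finset.mem_insert_of_mem hp))).2 ?_)
      rintro rfl
      exact ha hp
    obtain ⟨⟨T'', h4⟩, h5⟩ := and_dens hc hT' hT h3 h2
    have hiff : ∀ x y, (P a x y ∧ ∀ p ∈ S, P p x y) ↔ ∀ p ∈ insert a S, P p x y := by
      intro x y
      simp
    refine ⟨?_, ?_⟩
    · rw [Finset.prod_insert ha]
      exact ⟨T'', fun x y => (hiff x y).symm.trans (h4 x y)⟩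
    · rw [Finset.prod_insert ha]
      exact h5.congr hiff

end Pool.Agent.H828_SQ
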