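import Pool.Agent.H828_SQ.Asym

/-!
The proportion of semistable curves with `|Δ| > K N`, and with `|Δ| > ψ (N) N`.
-/

set_option autoImplicit false

namespace Pool.Agent.H828_SQ

open Filter Topology

/-- the product of the primes dividing `Δ` -/
def rad (Δ : ℤ) : ℕ := ∏ p ∈ Δ.natAbs.primeFactors, p

def Qg (K : ℕ) (c Δ : ℤ) : Prop := Δ ≠ 0 ∧ IsCoprime c Δ ∧ K * rad Δ < Δ.natAbs

def Qp (ψ : ℕ → ℝ) (c Δ : ℤ) : Prop :=
  Δ ≠ 0 ∧ IsCoprime c Δ ∧ ψ (rad Δ) * rad Δ < |(Δ : ℝ)|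

theorem rad_pos (Δ : ℤ) : 0 < rad Δ :=
  Finset.prod_pos fun _ hp => (Nat.prime_of_mem_primeFactors hp).pos

theorem rad_dvd (Δ : ℤ) : rad Δ ∣ Δ.natAbs := Nat.prod_primeFactors_dvd _

theorem fam_add {Q Q1 Q2 : ℤ → ℤ → Prop} (h : ∀ c Δ, Q c Δ ↔ Q1 c Δ ∨ Q2 c Δ)
    (hd : ∀ c Δ, Q1 c Δ → ¬ Q2 c Δ) (X : ℝ) :
    (Fam Q X).ncard = (Fam Q1 X).ncard + (Fam Q2 X).ncard := by
  rw [(fam_card Q X).2, (fam_card Q1 X).2, (fam_card Q2 X).2, ← Finset.sum_add_distrib]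
  refine Finset.sum_congr rfl fun e _ => ?_
  have hset : Sel Q e X = Sel Q1 e X ∪ Sel Q2 e X := by
    ext z
    simp only [Sel, Set.mem_ofPred_eq, Set.mem_union, h]
    tauto
  rw [hset, Set.ncard_union_eq _ (sel_finite _ _ _) (sel_finite _ _ _)]
  rw [Set.disjoint_left]
  intro z h1 h2
  exact hd _ _ h1.2 h2.2

theorem Qg_zero (c Δ : ℤ) : Qg 0 c Δ ↔ Qs c Δ := by
  unfold Qg Qs
  constructor
  · rintro ⟨h1, h2, -⟩
    exact ⟨h1, h2⟩
  · rintro ⟨h1, h2⟩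
    exact ⟨h1, h2, by rw [zero_mul]; exact Int.natAbs_pos.2 h1⟩

theorem Qg_succ (K : ℕ) (c Δ : ℤ) : Qg K c Δ ↔ Qg (K + 1) c Δ ∨ Qm (K + 1) c Δ := by
  unfold Qg Qm
  change _ ↔ _ ∨ (_ ∧ _ ∧ Δ.natAbs = (K + 1) * rad Δ)
  constructor
  · rintro ⟨h1, h2, h3⟩
    obtain ⟨m, hm⟩ := rad_dvd Δ
    have hr := rad_pos Δ
    rw [hm, mul_comm (rad Δ)] at h3
    have h4 : K < m := lt_of_mul_lt_mul_right h3 hr.le
    rcases Nat.lt_or_ge (K + 1) m with h5 | h5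
    · left
      refine ⟨h1, h2, ?_⟩
      rw [hm, mul_comm (rad Δ)]
      exact Nat.mul_lt_mul_of_pos_right h5 hr
    · right
      refine ⟨h1, h2, ?_⟩
      have : m = K + 1 := by omega
      rw [hm, this, mul_comm]
  · rintro (⟨h1, h2, h3⟩ | ⟨h1, h2, h3⟩)
    · refine ⟨h1, h2, lt_of_le_of_lt (Nat.mul_le_mul_right _ (by omega)) h3⟩
    · refine ⟨h1, h2, ?_⟩
      rw [h3]
      exact Nat.mul_lt_mul_of_pos_right (by omega) (rad_pos Δ)

theorem lim_g (K : ℕ) : Tendsto (fun X : ℝ => ((Fam (Qg K) X).ncard : ℝ) / X ^ (5 / 6 : ℝ)) atTop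
    (𝓝 (1 / (144 * Real.pi ^ 2) * tail K)) := by
  induction K with
  | zero =>
    have e1 : tail 0 = 1 := by simp [tail]
    rw [e1, mul_one]
    refine lim_all.congr fun X => ?_
    have : Fam (Qg 0) X = Fam Qs X := by
      ext w
      simp only [Fam, Set.mem_ofPred_eq, Qg_zero]
    rw [this]
  | succ K ih =>
    have h1 := ih.sub (lim_m (m := K + 1) (by omega))
    have e1 : 1 / (144 * Real.pi ^ 2) * tail K - 1 / (144 * Real.pi ^ 2) * law (K + 1) =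
        1 / (144 * Real.pi ^ 2) * tail (K + 1) := by
      unfold tail
      rw [Finset.sum_Icc_succ_top (by omega)]
      ring
    rw [e1] at h1
    refine h1.congr fun X => ?_
    have h2 := fam_add (Qg_succ K) (fun c Δ h3 h4 => by
      have h5 := h3.2.2
      have h6 : Δ.natAbs = (K + 1) * rad Δ := h4.2.2
      omega) X
    rw [h2]
    push_cast
    ring

theorem tail_tendsto : Tendsto tail atTop (𝓝 0) := by
  have h1 := law_hasSum.tendsto_sum_nat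
  have h2 : Tendsto (fun K : ℕ => 1 - ∑ m ∈ Finset.range (K + 1), law m) atTop (𝓝 (1 - 1)) :=
    ((tendsto_add_atTop_iff_nat 1).2 h1).const_sub 1
  rw [sub_self] at h2
  refine h2.congr fun K => ?_
  unfold tail
  rw [Finset.range_eq_Ico, Finset.sum_eq_sum_Ico_succ_bot (by omega)]
  have : law 0 = 0 := by simp [law, g_zero]
  rw [this, zero_add]
  rfl

theorem small_disc (e : ℤ × ℤ × ℤ) {X : ℝ} (hX : 1 ≤ X) (B : ℕ) :
    (({z | z ∈ Reg e X ∧ (D e z.1 z.2).natAbs ≤ B} : Set (ℤ × ℤ)).ncard : ℝ) ≤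
      (2 * B + 1) * (4 * X ^ (1 / 3 : ℝ)) := by
  classical
  let R := (reg_finite e X).toFinset
  have hsub : ({z | z ∈ Reg e X ∧ (D e z.1 z.2).natAbs ≤ B} : Set (ℤ × ℤ)) ⊆
      (((Finset.Icc (-(B : ℤ)) B).biUnion fun c => R.filter fun z => D e z.1 z.2 = c :
        Finset (ℤ × ℤ)) : Set (ℤ × ℤ)) := by
    rintro z ⟨h1, h2⟩
    simp only [Finset.mem_coe, Finset.mem_biUnion, Finset.mem_filter, Finset.mem_Icc]
    refine ⟨D e z.1 z.2, by omega, ?_, rfl⟩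
    simp only [R, Set.Finite.mem_toFinset]
    exact h1
  have h1 := Set.ncard_le_ncard hsub (Finset.finite_toSet _)
  rw [Set.ncard_coe_finset] at h1
  have h2 := h1.trans Finset.card_biUnion_le
  have h3 : ∀ c ∈ Finset.Icc (-(B : ℤ)) B,
      ((R.filter fun z => D e z.1 z.2 = c).card : ℝ) ≤ 4 * X ^ (1 / 3 : ℝ) := by
    intro c _
    have h4 := cnt_val e hX c
    have h5 : ((R.filter fun z => D e z.1 z.2 = c).card : ℝ) =
        (({z | z ∈ Reg e X ∧ D e z.1 z.2 = c} : Set (ℤ × ℤ)).ncard : ℝ) := by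
      rw [← Set.ncard_coe_finset]
      congr 2
      ext z
      simp [R]
    rw [h5]
    linarith
  calc _ ≤ ∑ c ∈ Finset.Icc (-(B : ℤ)) B, ((R.filter fun z => D e z.1 z.2 = c).card : ℝ) := by
        exact_mod_cast h2
    _ ≤ ∑ c ∈ Finset.Icc (-(B : ℤ)) B, 4 * X ^ (1 / 3 : ℝ) := Finset.sum_le_sum h3
    _ = _ := by
        rw [Finset.sum_const, nsmul_eq_mul, Int.card_Icc]
        congr 1
        have : ((B : ℤ) + 1 - -(B : ℤ)).toNat = 2 * B + 1 := by omega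
        rw [this]
        push_cast
        ring

theorem lim_p {ψ : ℕ → ℝ} (hψ : Tendsto ψ atTop atTop) :
    Tendsto (fun X : ℝ => ((Fam (Qp ψ) X).ncard : ℝ) / X ^ (5 / 6 : ℝ)) atTop (𝓝 0) := by
  rw [Metric.tendsto_nhds]
  intro ε hε
  have hπ : (0 : ℝ) < 1 / (144 * Real.pi ^ 2) := by
    have := Real.pi_pos
    positivity
  have h1 : Tendsto (fun K => 1 / (144 * Real.pi ^ 2) * tail K) atTop (𝓝 0) := by
    have := tail_tendsto.const_mul (1 / (144 * Real.pi ^ 2))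
    rwa [mul_zero] at this
  obtain ⟨K, hK⟩ := (h1.eventually (gt_mem_nhds (show (0 : ℝ) < ε / 4 by positivity))).exists
  obtain ⟨n0, hn0⟩ := (hψ.eventually_ge_atTop (K : ℝ)).exists_forall_of_atTop
  have h2 := (lim_g K).eventually (gt_mem_nhds (show 1 / (144 * Real.pi ^ 2) * tail K < ε / 2 by
    linarith))
  have h3 := (err_tendsto.const_mul (12 * ((2 * (K * n0 : ℕ) + 1) * 4) : ℝ)).eventually
    (gt_mem_nhds (show 12 * ((2 * (K * n0 : ℕ) + 1) * 4 : ℝ) * 0 < ε / 2 by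
      rw [mul_zero]; positivity))
  filter_upwards [h2, h3, eventually_ge_atTop 1] with X h2 h3 hX
  have hX0 : 0 < X := by linarith
  have hp : 0 < X ^ (5 / 6 : ℝ) := Real.rpow_pos_of_pos hX0 _
  have hu : 0 < X ^ (1 / 3 : ℝ) := Real.rpow_pos_of_pos hX0 _
  have hv : 0 < X ^ (1 / 2 : ℝ) := Real.rpow_pos_of_pos hX0 _
  rw [Real.dist_eq, sub_zero, abs_of_nonneg (by positivity)]
  have h4 : ∀ e ∈ E, ((Sel (Qp ψ) e X).ncard : ℝ) ≤ (Sel (Qg K) e X).ncard +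
      (2 * (K * n0 : ℕ) + 1) * (4 * X ^ (1 / 3 : ℝ)) := by
    intro e _
    have hsub : Sel (Qp ψ) e X ⊆ Sel (Qg K) e X ∪
        {z | z ∈ Reg e X ∧ (D e z.1 z.2).natAbs ≤ K * n0} := by
      rintro z ⟨hz, h5, h6, h7⟩
      by_cases h8 : K * rad (D e z.1 z.2) < (D e z.1 z.2).natAbs
      · exact Or.inl ⟨hz, h5, h6, h8⟩
      · right
        refine ⟨hz, ?_⟩
        have h9 : rad (D e z.1 z.2) < n0 := by
          by_contra h10
          have h11 := hn0 (rad (D e z.1 z.2)) (by omega)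
          apply h8
          have h12 : (K : ℝ) * rad (D e z.1 z.2) < |((D e z.1 z.2 : ℤ) : ℝ)| :=
            lt_of_le_of_lt (mul_le_mul_of_nonneg_right h11 (Nat.cast_nonneg _)) h7
          have h13 : ((D e z.1 z.2).natAbs : ℝ) = |((D e z.1 z.2 : ℤ) : ℝ)| := by
            rw [Nat.cast_natAbs, Int.cast_abs]
          rw [← h13] at h12
          exact_mod_cast h12
        calc (D e z.1 z.2).natAbs ≤ K * rad (D e z.1 z.2) := by omega
          _ ≤ K * n0 := Nat.mul_le_mul_left _ h9.le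
    have h5 := (Set.ncard_le_ncard hsub ((sel_finite _ _ _).union
      ((reg_finite e X).subset fun z hz => hz.1))).trans (Set.ncard_union_le _ _)
    have h6 := small_disc e hX (K * n0)
    have h7 : ((Sel (Qp ψ) e X).ncard : ℝ) ≤ (Sel (Qg K) e X).ncard +
      (({z | z ∈ Reg e X ∧ (D e z.1 z.2).natAbs ≤ K * n0} : Set (ℤ × ℤ)).ncard : ℝ) := by
      exact_mod_cast h5
    linarith
  have h5 : ((Fam (Qp ψ) X).ncard : ℝ) ≤ (Fam (Qg K) X).ncard +
      12 * ((2 * (K * n0 : ℕ) + 1) * (4 * X ^ (1 / 3 : ℝ))) := by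
    rw [(fam_card _ X).2, (fam_card _ X).2]
    push_cast
    push_cast at h4
    refine (Finset.sum_le_sum h4).trans ?_
    rw [Finset.sum_add_distrib, Finset.sum_const, nsmul_eq_mul]
    have : E.card = 12 := by decide
    rw [this]
    push_cast
    exact le_rfl
  have h6 : ((Fam (Qp ψ) X).ncard : ℝ) / X ^ (5 / 6 : ℝ) ≤
      ((Fam (Qg K) X).ncard : ℝ) / X ^ (5 / 6 : ℝ) +
      12 * ((2 * (K * n0 : ℕ) + 1) * 4) * ((X ^ (1 / 3 : ℝ) + X ^ (1 / 2 : ℝ) + 1) /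
        X ^ (5 / 6 : ℝ)) := by
    rw [← mul_div_assoc, ← add_div]
    refine div_le_div_of_nonneg_right (h5.trans ?_) hp.le
    have h7 : (0 : ℝ) ≤ 12 * ((2 * (K * n0 : ℕ) + 1) * 4) := by positivity
    have h8 : X ^ (1 / 3 : ℝ) ≤ X ^ (1 / 3 : ℝ) + X ^ (1 / 2 : ℝ) + 1 := by linarith
    have h9 := mul_le_mul_of_nonneg_left h8 h7
    linarith
  linarith

/-- proportions -/
theorem prop_lim {Q : ℤ → ℤ → Prop} {t : ℝ}
    (h : Tendsto (fun X : ℝ => ((Fam Q X).ncard : ℝ) / X ^ (5 / 6 : ℝ)) atTop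
      (𝓝 (1 / (144 * Real.pi ^ 2) * t))) :
    Tendsto (fun X : ℝ => ((Fam Q X).ncard : ℝ) / ((Fam Qs X).ncard : ℝ)) atTop (𝓝 t) := by
  have hπ : (0 : ℝ) < 1 / (144 * Real.pi ^ 2) := by
    have := Real.pi_pos
    positivity
  have h1 := h.div lim_all hπ.ne'
  rw [mul_div_cancel_left₀ _ hπ.ne'] at h1
  refine h1.congr' ?_
  filter_upwards [eventually_gt_atTop 0] with X hX
  have hp : 0 < X ^ (5 / 6 : ℝ) := Real.rpow_pos_of_pos hX _
  rw [Pi.div_apply, div_div_div_cancel_right₀ hp.ne']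

/-- almost all curves satisfy the inequality with a slowly growing function -/
theorem prop_psi {ψ : ℕ → ℝ} (hψ : Tendsto ψ atTop atTop) :
    Tendsto (fun X : ℝ => ((Fam (fun c Δ => Δ ≠ 0 ∧ IsCoprime c Δ ∧
      |(Δ : ℝ)| ≤ ψ (rad Δ) * rad Δ) X).ncard : ℝ) / ((Fam Qs X).ncard : ℝ)) atTop (𝓝 1) := by
  refine prop_lim ?_
  rw [mul_one]
  have h1 := lim_all.sub (lim_p hψ)
  rw [sub_zero] at h1
  refine h1.congr fun X => ?_
  have h2 := fam_add (Q := Qs) (Q1 := Qp ψ) (Q2 := fun c Δ => Δ ≠ 0 ∧ IsCoprime c Δ ∧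
      |(Δ : ℝ)| ≤ ψ (rad Δ) * rad Δ) (fun c Δ => by
        unfold Qs Qp
        have := lt_or_ge (ψ (rad Δ) * rad Δ) |(Δ : ℝ)|
        tauto) (fun c Δ h3 h4 => absurd h3.2.2 (not_lt.2 h4.2.2)) X
  rw [h2]
  push_cast
  ring

end Pool.Agent.H828_SQ
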