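import Pool.Agent.H828_SQ.Dens

/-!
Local densities.
-/

set_option autoImplicit false

namespace Pool.Agent.H828_SQ

open Filter Topology

/-- multiplicative reduction at `p` with `p ^ k ∣ Δ` -/
def EP (p k : ℕ) (e : ℤ × ℤ × ℤ) (x y : ℤ) : Prop := ¬ (p : ℤ) ∣ u4 e x ∧ (p : ℤ) ^ k ∣ D e x y

/-- additive reduction at `p` -/
def ZP (p : ℕ) (e : ℤ × ℤ × ℤ) (x y : ℤ) : Prop := (p : ℤ) ∣ u4 e x ∧ (p : ℤ) ∣ D e x y

theorem six_coprime {p : ℕ} (hp : p.Prime) (h5 : 5 ≤ p) {n : ℕ} (k m : ℕ) (hn : n ∣ 6 ^ m) :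
    n.Coprime (p ^ k) := by
  refine Nat.Coprime.pow_right k ?_
  refine Nat.Coprime.coprime_dvd_left hn (Nat.Coprime.pow_left m ?_)
  have h2 : Nat.Coprime 2 p := (Nat.coprime_primes Nat.prime_two hp).2 (by omega)
  have h3 : Nat.Coprime 3 p := (Nat.coprime_primes Nat.prime_three hp).2 (by omega)
  exact Nat.Coprime.mul_left h2 h3

theorem unit_cast {p : ℕ} (hp : p.Prime) {k : ℕ} (hk : 1 ≤ k) (n : ℤ) :
    IsUnit (n : ZMod (p ^ k)) ↔ ¬ (p : ℤ) ∣ n := by
  rw [ZMod.coe_int_isUnit_iff_isCoprime]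
  push_cast
  rw [IsCoprime.pow_left_iff (by omega)]
  have hp' : Prime (p : ℤ) := Nat.prime_iff_prime_int.1 hp
  exact (Irreducible.coprime_iff_not_dvd hp'.irreducible)

theorem zero_cast {p k : ℕ} (n : ℤ) : (n : ZMod (p ^ k)) = 0 ↔ (p : ℤ) ^ k ∣ n := by
  rw [ZMod.intCast_zmod_eq_zero_iff_dvd]
  push_cast
  rfl

section big

variable {p : ℕ} (hp : p.Prime) (h5 : 5 ≤ p)
include hp h5

theorem D_zero_iff (k : ℕ) (e : ℤ × ℤ × ℤ) (x y : ℤ) : (p : ℤ) ^ k ∣ D e x y ↔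
    (u4 e x : ZMod (p ^ k)) ^ 3 = (u6 e x y : ZMod (p ^ k)) ^ 2 := by
  have h := congrArg (fun n : ℤ => (n : ZMod (p ^ k))) (rel e x y)
  push_cast at h
  have hu : IsUnit ((1728 : ℕ) : ZMod (p ^ k)) :=
    (ZMod.isUnit_iff_coprime _ _).2 (six_coprime hp h5 k 6 (by norm_num))
  push_cast at hu
  rw [← zero_cast]
  constructor
  · intro h0
    rw [h0, mul_zero] at h
    exact (sub_eq_zero.1 h.symm)
  · intro h0
    rw [h0, sub_self] at h
    exact (hu.mul_right_eq_zero).1 h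

theorem dens_EP (e : ℤ × ℤ × ℤ) {k : ℕ} (hk : 1 ≤ k) :
    HasDens e (EP p k e) (((p : ℝ) - 1) / (p : ℝ) ^ (k + 1)) := by
  classical
  have : NeZero (p ^ k) := ⟨pow_ne_zero _ hp.ne_zero⟩
  have hu1 : IsUnit ((48 : ℕ) : ZMod (p ^ k)) :=
    (ZMod.isUnit_iff_coprime _ _).2 (six_coprime hp h5 k 4 (by norm_num))
  have hu2 : IsUnit ((864 : ℕ) : ZMod (p ^ k)) :=
    (ZMod.isUnit_iff_coprime _ _).2 (six_coprime hp h5 k 5 (by norm_num))
  push_cast at hu1 hu2
  obtain ⟨i1, hi1⟩ := hu1.exists_right_inv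
  obtain ⟨i2, hi2⟩ := hu2.exists_right_inv
  let X : (ZMod (p ^ k))ˣ → ZMod (p ^ k) := fun t => ((al e : ZMod (p ^ k)) - (t : ZMod (p ^ k)) ^ 2) * i1
  let Y : (ZMod (p ^ k))ˣ → ZMod (p ^ k) := fun t =>
    ((be e : ZMod (p ^ k)) + 72 * b2 e * X t - (t : ZMod (p ^ k)) ^ 3) * i2
  have hX : ∀ t, (al e : ZMod (p ^ k)) - 48 * X t = (t : ZMod (p ^ k)) ^ 2 := by
    intro t
    simp only [X]
    linear_combination (-(al e : ZMod (p ^ k)) + (t : ZMod (p ^ k)) ^ 2) * hi1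
  have hY : ∀ t, (be e : ZMod (p ^ k)) + 72 * b2 e * X t - 864 * Y t =
      (t : ZMod (p ^ k)) ^ 3 := by
    intro t
    simp only [Y]
    linear_combination (-(be e : ZMod (p ^ k)) - 72 * b2 e * X t + (t : ZMod (p ^ k)) ^ 3) * hi2
  have hinj : Function.Injective fun t => (X t, Y t) := by
    intro t s hts
    simp only [Prod.mk.injEq] at hts
    have h1 : (t : ZMod (p ^ k)) ^ 2 = (s : ZMod (p ^ k)) ^ 2 := by
      rw [← hX, ← hX, hts.1]
    have h2 : (t : ZMod (p ^ k)) ^ 3 = (s : ZMod (p ^ k)) ^ 3 := by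
      rw [← hY, ← hY, hts.1, hts.2]
    have h3 : t ^ 2 = s ^ 2 := Units.ext (by push_cast; exact h1)
    have h4 : t ^ 3 = s ^ 3 := Units.ext (by push_cast; exact h2)
    have h5 : t ^ 2 * t = t ^ 2 * s := by
      rw [← pow_succ, h4, pow_succ, h3]
    exact mul_left_cancel h5
  have hT : Per (p ^ k) (EP p k e) (Finset.univ.image fun t => (X t, Y t)) := by
    intro x y
    simp only [Finset.mem_image, Finset.mem_univ, true_and, Prod.mk.injEq]
    unfold EP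
    rw [← unit_cast hp hk, D_zero_iff hp h5]
    have e4 : (u4 e x : ZMod (p ^ k)) = (al e : ZMod (p ^ k)) - 48 * x := by
      simp [u4]
    have e6 : (u6 e x y : ZMod (p ^ k)) = (be e : ZMod (p ^ k)) + 72 * b2 e * x - 864 * y := by
      simp [u6]
    constructor
    · rintro ⟨hu, h3⟩
      have hv : IsUnit (u6 e x y : ZMod (p ^ k)) := by
        have h6 : IsUnit ((u6 e x y : ZMod (p ^ k)) ^ 2) := h3 ▸ hu.pow 3
        exact (isUnit_pow_iff (by norm_num)).1 h6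
      obtain ⟨U, hU⟩ := hu
      obtain ⟨V, hV⟩ := hv
      rw [← hU, ← hV] at h3
      have h3' : U ^ 3 = V ^ 2 := Units.ext (by push_cast; exact h3)
      have ht2 : (V * U⁻¹) ^ 2 = U := by
        rw [mul_pow, ← h3', inv_pow, pow_succ U 2]
        rw [mul_comm (U ^ 2) U, mul_assoc, mul_inv_cancel, mul_one]
      have ht3 : (V * U⁻¹) ^ 3 = V := by
        rw [pow_succ, ht2, mul_comm V, ← mul_assoc, mul_inv_cancel, one_mul]
      have h7 : X (V * U⁻¹) = x := by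
        have h8 := hX (V * U⁻¹)
        have h9 : (((V * U⁻¹ : (ZMod (p ^ k))ˣ)) : ZMod (p ^ k)) ^ 2 = (U : ZMod (p ^ k)) := by
          rw [← Units.val_pow_eq_pow_val, ht2]
        rw [h9, hU, e4] at h8
        have h10 : (48 : ZMod (p ^ k)) * X (V * U⁻¹) = 48 * x := by
          linear_combination -h8
        exact hu1.mul_left_cancel h10
      refine ⟨V * U⁻¹, h7, ?_⟩
      have h8 := hY (V * U⁻¹)
      have h9 : (((V * U⁻¹ : (ZMod (p ^ k))ˣ)) : ZMod (p ^ k)) ^ 3 = (V : ZMod (p ^ k)) := by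
        rw [← Units.val_pow_eq_pow_val, ht3]
      rw [h9, hV, e6, h7] at h8
      have h10 : (864 : ZMod (p ^ k)) * Y (V * U⁻¹) = 864 * y := by
        linear_combination -h8
      exact hu2.mul_left_cancel h10
    · rintro ⟨t, h6, h7⟩
      have h8 : (u4 e x : ZMod (p ^ k)) = (t : ZMod (p ^ k)) ^ 2 := by
        rw [e4, ← hX t, h6]
      have h9 : (u6 e x y : ZMod (p ^ k)) = (t : ZMod (p ^ k)) ^ 3 := by
        rw [e6, ← hY t, h6, h7]
      rw [h8, h9]
      exact ⟨(t.isUnit).pow 2, by ring⟩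
  have hd := per_dens e hT
  rw [Finset.card_image_of_injective _ hinj, Finset.card_univ, ZMod.card_units_eq_totient,
    Nat.totient_prime_pow hp (by omega)] at hd
  obtain ⟨k, rfl⟩ : ∃ k', k = k' + 1 := ⟨k - 1, by omega⟩
  have e1 : ((p ^ (k + 1 - 1) * (p - 1) : ℕ) : ℝ) / ((p ^ (k + 1) : ℕ) : ℝ) ^ 2 =
      ((p : ℝ) - 1) / (p : ℝ) ^ (k + 1 + 1) := by
    have hp0 : (p : ℝ) ≠ 0 := by exact_mod_cast hp.ne_zero
    rw [Nat.add_sub_cancel]
    push_cast [Nat.cast_sub hp.one_le]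
    field_simp
    ring
  rw [e1] at hd
  exact hd

theorem dens_ZP (e : ℤ × ℤ × ℤ) : HasDens e (ZP p e) (1 / (p : ℝ) ^ 2) := by
  classical
  have : NeZero (p ^ 1) := ⟨pow_ne_zero _ hp.ne_zero⟩
  have hu1 : IsUnit ((48 : ℕ) : ZMod (p ^ 1)) :=
    (ZMod.isUnit_iff_coprime _ _).2 (six_coprime hp h5 1 4 (by norm_num))
  have hu2 : IsUnit ((864 : ℕ) : ZMod (p ^ 1)) :=
    (ZMod.isUnit_iff_coprime _ _).2 (six_coprime hp h5 1 5 (by norm_num))
  push_cast at hu1 hu2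
  obtain ⟨i1, hi1⟩ := hu1.exists_right_inv
  obtain ⟨i2, hi2⟩ := hu2.exists_right_inv
  have hp' : Prime (p : ℤ) := Nat.prime_iff_prime_int.1 hp
  have hz : ∀ n : ℤ, (n : ZMod (p ^ 1)) = 0 ↔ (p : ℤ) ∣ n := by
    intro n
    rw [zero_cast, pow_one]
  have hT : Per (p ^ 1) (ZP p e) {((al e : ZMod (p ^ 1)) * i1,
      ((be e : ZMod (p ^ 1)) + 72 * b2 e * ((al e : ZMod (p ^ 1)) * i1)) * i2)} := by
    intro x y
    simp only [Finset.mem_singleton, Prod.mk.injEq]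
    unfold ZP
    have h1 : (p : ℤ) ∣ u4 e x → ((p : ℤ) ∣ D e x y ↔ (p : ℤ) ∣ u6 e x y) := by
      intro h2
      have h3 := D_zero_iff hp h5 1 e x y
      rw [pow_one] at h3
      rw [h3, (hz _).2 h2, zero_pow (by norm_num), eq_comm]
      constructor
      · intro h4
        have h5' : (((u6 e x y) ^ 2 : ℤ) : ZMod (p ^ 1)) = 0 := by
          push_cast
          exact h4
        rw [hz] at h5'
        exact hp'.dvd_of_dvd_pow h5'
      · intro h4
        rw [(hz _).2 h4]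
        norm_num
    have e4 : (u4 e x : ZMod (p ^ 1)) = (al e : ZMod (p ^ 1)) - 48 * x := by
      simp [u4]
    have e6 : (u6 e x y : ZMod (p ^ 1)) = (be e : ZMod (p ^ 1)) + 72 * b2 e * x - 864 * y := by
      simp [u6]
    constructor
    · rintro ⟨h2, h3⟩
      have h4 := (h1 h2).1 h3
      rw [← hz, e4] at h2
      rw [← hz, e6] at h4
      have h5 : (x : ZMod (p ^ 1)) = (al e : ZMod (p ^ 1)) * i1 := by
        linear_combination (-(x : ZMod (p ^ 1))) * hi1 - i1 * h2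
      refine ⟨h5, ?_⟩
      rw [← h5]
      linear_combination (-(y : ZMod (p ^ 1))) * hi2 - i2 * h4
    · rintro ⟨h2, h3⟩
      have h4 : (p : ℤ) ∣ u4 e x := by
        rw [← hz, e4, h2]
        linear_combination (-(al e : ZMod (p ^ 1))) * hi1
      refine ⟨h4, (h1 h4).2 ?_⟩
      rw [← hz, e6, h3, ← h2]
      linear_combination (-(be e : ZMod (p ^ 1)) - 72 * b2 e * x) * hi2
  have hd := per_dens e hT
  rw [Finset.card_singleton] at hd
  push_cast at hd
  rw [pow_one] at hd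
  exact hd

end big

section small

theorem b2_mod (e : ℤ × ℤ × ℤ) (x : ℤ) {p : ℕ} (h : p = 2 ∨ p = 3) :
    (p : ℤ) ∣ u4 e x ↔ (p : ℤ) ∣ b2 e := by
  have hp : p.Prime := by
    rcases h with rfl | rfl
    · exact Nat.prime_two
    · exact Nat.prime_three
  have hp' : Prime (p : ℤ) := Nat.prime_iff_prime_int.1 hp
  have h24 : (p : ℤ) ∣ 24 := by
    rcases h with rfl | rfl <;> norm_num
  have h1 : (p : ℤ) ∣ u4 e x ↔ (p : ℤ) ∣ b2 e ^ 2 := by
    have h2 : u4 e x = b2 e ^ 2 - 24 * (e.1 * e.2.2 + 2 * x) := by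
      unfold u4 al
      ring
    rw [h2]
    have h3 : (p : ℤ) ∣ 24 * (e.1 * e.2.2 + 2 * x) := h24.mul_right _
    constructor
    · intro h4
      have := dvd_add h4 h3
      rwa [sub_add_cancel] at this
    · intro h4
      exact dvd_sub h4 h3
  rw [h1]
  exact ⟨fun h => hp'.dvd_of_dvd_pow h, fun h => dvd_pow h (by norm_num)⟩

theorem dens_D_small (e : ℤ × ℤ × ℤ) {p : ℕ} (h : p = 2 ∨ p = 3) (hb : ¬ (p : ℤ) ∣ b2 e)
    {k : ℕ} (hk : 1 ≤ k) : HasDens e (fun x y => (p : ℤ) ^ k ∣ D e x y) (1 / (p : ℝ) ^ k) := by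
  classical
  have hp : p.Prime := by
    rcases h with rfl | rfl
    · exact Nat.prime_two
    · exact Nat.prime_three
  have hp' : Prime (p : ℤ) := Nat.prime_iff_prime_int.1 hp
  have : NeZero (p ^ k) := ⟨pow_ne_zero _ hp.ne_zero⟩
  have hw : ∀ x y y' : ℤ, IsUnit (((be e + 72 * b2 e * x - 432 * (y + y') : ℤ)) : ZMod (p ^ k)) := by
    intro x y y'
    rw [unit_cast hp hk]
    intro h1
    have h36 : (p : ℤ) ∣ 36 := by
      rcases h with rfl | rfl <;> norm_num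
    have h2 : (p : ℤ) ∣ 36 * (b2 e * e.1 * e.2.2 - 6 * e.2.2 ^ 2 + 2 * b2 e * x -
      12 * (y + y')) := h36.mul_right _
    have h3 : (p : ℤ) ∣ b2 e ^ 3 := by
      have h4 := dvd_sub h2 h1
      have h5 : 36 * (b2 e * e.1 * e.2.2 - 6 * e.2.2 ^ 2 + 2 * b2 e * x - 12 * (y + y')) -
          (be e + 72 * b2 e * x - 432 * (y + y')) = b2 e ^ 3 := by
        unfold be
        ring
      rwa [h5] at h4
    exact hb (hp'.dvd_of_dvd_pow h3)
  have hinj : ∀ x y y' : ℤ, (D e x y : ZMod (p ^ k)) = (D e x y' : ZMod (p ^ k)) →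
      (y : ZMod (p ^ k)) = (y' : ZMod (p ^ k)) := by
    intro x y y' h1
    have h2 := congrArg (fun n : ℤ => (n : ZMod (p ^ k))) (D_sub e x y y')
    push_cast at h2
    rw [h1, sub_self] at h2
    have h3 := hw x y y'
    push_cast at h3
    have h4 := (h3.mul_left_eq_zero).1 h2.symm
    exact sub_eq_zero.1 h4
  -- the polynomial map on the ring
  have hper : ∀ x y y' : ℤ, (y : ZMod (p ^ k)) = (y' : ZMod (p ^ k)) →
      (D e x y : ZMod (p ^ k)) = (D e x y' : ZMod (p ^ k)) := by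
    intro x y y' h1
    rw [D_eq, D_eq]
    push_cast
    rw [h1]
  have hperx : ∀ x x' y : ℤ, (x : ZMod (p ^ k)) = (x' : ZMod (p ^ k)) →
      (D e x y : ZMod (p ^ k)) = (D e x' y : ZMod (p ^ k)) := by
    intro x x' y h1
    rw [D_eq, D_eq]
    push_cast
    rw [h1]
  have hval : ∀ z : ZMod (p ^ k), (((z.val : ℕ) : ℤ) : ZMod (p ^ k)) = z := by
    intro z
    rw [Int.cast_natCast, ZMod.natCast_zmod_val]
  have hex : ∀ x : ZMod (p ^ k), ∃ y : ZMod (p ^ k),
      (D e (x.val : ℤ) (y.val : ℤ) : ZMod (p ^ k)) = 0 := by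
    intro x
    have h1 : Function.Injective fun y : ZMod (p ^ k) =>
        (D e (x.val : ℤ) (y.val : ℤ) : ZMod (p ^ k)) := by
      intro y y' h2
      have h3 := hinj _ _ _ h2
      rwa [hval, hval] at h3
    exact (Finite.injective_iff_surjective.1 h1) 0
  choose g hg using hex
  have hT : Per (p ^ k) (fun x y => (p : ℤ) ^ k ∣ D e x y)
      (Finset.univ.image fun x => (x, g x)) := by
    intro x y
    change (p : ℤ) ^ k ∣ D e x y ↔ _
    rw [← zero_cast]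
    simp only [Finset.mem_image, Finset.mem_univ, true_and, Prod.mk.injEq, exists_eq_left]
    have h1 := hg (x : ZMod (p ^ k))
    have h2 : (D e (((x : ZMod (p ^ k)).val : ℕ) : ℤ) (((g (x : ZMod (p ^ k))).val : ℕ) : ℤ) :
        ZMod (p ^ k)) = (D e x (((g (x : ZMod (p ^ k))).val : ℕ) : ℤ) : ZMod (p ^ k)) :=
      hperx _ _ _ (hval _)
    rw [h2] at h1
    constructor
    · intro h3
      have := hinj x _ _ (h1.trans h3.symm)
      rwa [hval] at this
    · intro h3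
      rw [← h1]
      refine hper _ _ _ ?_
      rw [hval, h3]
  have hd := per_dens e hT
  rw [Finset.card_image_of_injective _ (fun a b hab => (Prod.mk.inj hab).1), Finset.card_univ,
    ZMod.card] at hd
  have e1 : ((p ^ k : ℕ) : ℝ) / ((p ^ k : ℕ) : ℝ) ^ 2 = 1 / (p : ℝ) ^ k := by
    have hp0 : (p : ℝ) ≠ 0 := by exact_mod_cast hp.ne_zero
    push_cast
    field_simp
  rw [e1] at hd
  exact hd

end small

end Pool.Agent.H828_SQ
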