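import Mathlib

/-!
Reduced Weierstrass equations over the integers: formulas, existence and uniqueness.
-/

set_option autoImplicit false

namespace Pool.Agent.H828_SQ

/-- the reduced Weierstrass equation with the parameters `e = (a₁, a₂, a₃)` -/
def mk (e : ℤ × ℤ × ℤ) (x y : ℤ) : WeierstrassCurve ℤ := ⟨e.1, e.2.1, e.2.2, x, y⟩

/-- the twelve triples of parameters -/
def E : Finset (ℤ × ℤ × ℤ) := {0, 1} ×ˢ ({-1, 0, 1} ×ˢ {0, 1})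

/-- the invariant `b₂` -/
def b2 (e : ℤ × ℤ × ℤ) : ℤ := e.1 ^ 2 + 4 * e.2.1

def al (e : ℤ × ℤ × ℤ) : ℤ := b2 e ^ 2 - 24 * e.1 * e.2.2

def be (e : ℤ × ℤ × ℤ) : ℤ := -b2 e ^ 3 + 36 * b2 e * e.1 * e.2.2 - 216 * e.2.2 ^ 2

/-- `c₄` -/
def u4 (e : ℤ × ℤ × ℤ) (x : ℤ) : ℤ := al e - 48 * x

/-- `c₆` -/
def u6 (e : ℤ × ℤ × ℤ) (x y : ℤ) : ℤ := be e + 72 * b2 e * x - 864 * y

/-- the discriminant -/
def D (e : ℤ × ℤ × ℤ) (x y : ℤ) : ℤ := (mk e x y).Δ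

theorem c4_eq (e : ℤ × ℤ × ℤ) (x y : ℤ) : (mk e x y).c₄ = u4 e x := by
  simp only [mk, WeierstrassCurve.c₄, WeierstrassCurve.b₂, WeierstrassCurve.b₄, u4, al, b2]
  ring

theorem c6_eq (e : ℤ × ℤ × ℤ) (x y : ℤ) : (mk e x y).c₆ = u6 e x y := by
  simp only [mk, WeierstrassCurve.c₆, WeierstrassCurve.b₂, WeierstrassCurve.b₄,
    WeierstrassCurve.b₆, u6, be, b2]
  ring

theorem rel (e : ℤ × ℤ × ℤ) (x y : ℤ) : 1728 * D e x y = u4 e x ^ 3 - u6 e x y ^ 2 := by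
  have := (mk e x y).c_relation
  rw [c4_eq, c6_eq] at this
  exact this

theorem D_eq (e : ℤ × ℤ × ℤ) (x y : ℤ) : D e x y = -432 * y ^ 2 + (be e + 72 * b2 e * x) * y +
    (-b2 e ^ 2 * (-(e.1 * e.2.2 * x) + e.2.1 * e.2.2 ^ 2 - x ^ 2) - 8 * (2 * x + e.1 * e.2.2) ^ 3 -
      27 * e.2.2 ^ 4 + 9 * b2 e * (2 * x + e.1 * e.2.2) * e.2.2 ^ 2) := by
  simp only [D, mk, WeierstrassCurve.Δ, WeierstrassCurve.b₂, WeierstrassCurve.b₄,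
    WeierstrassCurve.b₆, WeierstrassCurve.b₈, be, b2]
  ring

theorem D_sub (e : ℤ × ℤ × ℤ) (x y y' : ℤ) : D e x y - D e x y' =
    (y - y') * (be e + 72 * b2 e * x - 432 * (y + y')) := by
  rw [D_eq, D_eq]
  ring

theorem exists_reduced (W : WeierstrassCurve ℤ) : ∃ e ∈ E, ∃ x y : ℤ,
    u4 e x = W.c₄ ∧ u6 e x y = W.c₆ ∧ D e x y = W.Δ := by
  obtain ⟨a1, a2, a3, a4, a6⟩ := W
  obtain ⟨s, hs⟩ : ∃ s : ℤ, a1 + 2 * s = 0 ∨ a1 + 2 * s = 1 := by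
    refine ⟨-(a1 / 2), ?_⟩
    omega
  obtain ⟨r, hr⟩ : ∃ r : ℤ, a2 - s * a1 + 3 * r - s ^ 2 = -1 ∨ a2 - s * a1 + 3 * r - s ^ 2 = 0 ∨
      a2 - s * a1 + 3 * r - s ^ 2 = 1 := by
    refine ⟨-((a2 - s * a1 - s ^ 2 + 1) / 3), ?_⟩
    generalize s * a1 = w1
    generalize s ^ 2 = w2
    omega
  obtain ⟨t, ht⟩ : ∃ t : ℤ, a3 + r * a1 + 2 * t = 0 ∨ a3 + r * a1 + 2 * t = 1 := by
    refine ⟨-((a3 + r * a1) / 2), ?_⟩
    generalize r * a1 = w1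
    omega
  have key : (mk (a1 + 2 * s, a2 - s * a1 + 3 * r - s ^ 2, a3 + r * a1 + 2 * t)
      (a4 - s * a3 + 2 * r * a2 - (t + r * s) * a1 + 3 * r ^ 2 - 2 * s * t)
      (a6 + r * a4 + r ^ 2 * a2 + r ^ 3 - t * a3 - t ^ 2 - r * t * a1)).c₄ =
      (WeierstrassCurve.mk a1 a2 a3 a4 a6).c₄ ∧
      (mk (a1 + 2 * s, a2 - s * a1 + 3 * r - s ^ 2, a3 + r * a1 + 2 * t)
      (a4 - s * a3 + 2 * r * a2 - (t + r * s) * a1 + 3 * r ^ 2 - 2 * s * t)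
      (a6 + r * a4 + r ^ 2 * a2 + r ^ 3 - t * a3 - t ^ 2 - r * t * a1)).c₆ =
      (WeierstrassCurve.mk a1 a2 a3 a4 a6).c₆ ∧
      (mk (a1 + 2 * s, a2 - s * a1 + 3 * r - s ^ 2, a3 + r * a1 + 2 * t)
      (a4 - s * a3 + 2 * r * a2 - (t + r * s) * a1 + 3 * r ^ 2 - 2 * s * t)
      (a6 + r * a4 + r ^ 2 * a2 + r ^ 3 - t * a3 - t ^ 2 - r * t * a1)).Δ =
      (WeierstrassCurve.mk a1 a2 a3 a4 a6).Δ := by
    simp only [mk, WeierstrassCurve.c₄, WeierstrassCurve.c₆, WeierstrassCurve.Δ,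
      WeierstrassCurve.b₂, WeierstrassCurve.b₄, WeierstrassCurve.b₆, WeierstrassCurve.b₈]
    refine ⟨by ring, by ring, by ring⟩
  refine ⟨(a1 + 2 * s, a2 - s * a1 + 3 * r - s ^ 2, a3 + r * a1 + 2 * t), ?_,
    a4 - s * a3 + 2 * r * a2 - (t + r * s) * a1 + 3 * r ^ 2 - 2 * s * t,
    a6 + r * a4 + r ^ 2 * a2 + r ^ 3 - t * a3 - t ^ 2 - r * t * a1, ?_⟩
  · simp only [E, Finset.mem_product, Finset.mem_insert, Finset.mem_singleton]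
    exact ⟨hs, hr, ht⟩
  · rw [← c4_eq, ← c6_eq]
    exact key

theorem unique_reduced {e e' : ℤ × ℤ × ℤ} (he : e ∈ E) (he' : e' ∈ E) {x y x' y' : ℤ}
    (h4 : u4 e x = u4 e' x') (h6 : u6 e x y = u6 e' x' y') : e = e' ∧ x = x' ∧ y = y' := by
  obtain ⟨a1, a2, a3⟩ := e
  obtain ⟨a1', a2', a3'⟩ := e'
  simp only [E, Finset.mem_product, Finset.mem_insert, Finset.mem_singleton] at he he'
  simp only [u4, u6, al, be, b2] at h4 h6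
  obtain ⟨h1, h2, h3⟩ := he
  obtain ⟨h1', h2', h3'⟩ := he'
  rcases h1 with rfl | rfl <;> rcases h2 with rfl | rfl | rfl <;> rcases h3 with rfl | rfl <;>
    rcases h1' with rfl | rfl <;> rcases h2' with rfl | rfl | rfl <;>
    rcases h3' with rfl | rfl <;> norm_num at h4 h6 ⊢ <;> omega

end Pool.Agent.H828_SQ
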